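import Pool.Agent.Helper27_Cap.Deriv

/-!
# The maximum principle for Newtonian potentials of planar measures
-/

namespace Pool.Agent.Helper27.Cap

open MeasureTheory Set Filter Topology
open scoped ENNReal NNReal

/-- truncated kernel -/
noncomputable def tk (n : ℕ) (p : ℂ × ℂ) : ℝ≥0 := (max ‖p.1 - p.2‖₊ ((n : ℝ≥0) + 1)⁻¹)⁻¹

theorem tk_eq (n : ℕ) (p : ℂ × ℂ) : (tk n p : ℝ≥0∞) = min (‖p.1 - p.2‖ₑ)⁻¹ ((n : ℝ≥0∞) + 1) := by
  have h0 : (0 : ℝ≥0) < ((n : ℝ≥0) + 1)⁻¹ := by positivity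
  have h1 : max ‖p.1 - p.2‖₊ ((n : ℝ≥0) + 1)⁻¹ ≠ 0 := (lt_max_of_lt_right h0).ne'
  rw [tk, ENNReal.coe_inv h1, ENNReal.coe_max, ENNReal.coe_inv (by positivity)]
  push_cast
  rw [← enorm_eq_nnnorm]
  rcases le_total (‖p.1 - p.2‖ₑ) ((n : ℝ≥0∞) + 1)⁻¹ with h | h
  · rw [max_eq_right h, inv_inv, min_eq_right]
    rw [← ENNReal.inv_le_inv, inv_inv]
    exact h
  · rw [max_eq_left h, min_eq_left]
    rw [← ENNReal.inv_le_inv, inv_inv]
    exact h

theorem tk_cont (n : ℕ) : Continuous (tk n) := by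
  unfold tk
  refine Continuous.inv₀ (by fun_prop) fun p => ?_
  have h0 : (0 : ℝ≥0) < ((n : ℝ≥0) + 1)⁻¹ := by positivity
  exact (lt_max_of_lt_right h0).ne'

theorem tk_mono : Monotone tk := by
  intro m n hmn p
  rw [← ENNReal.coe_le_coe, tk_eq, tk_eq]
  refine min_le_min le_rfl ?_
  gcongr

theorem tk_iSup (p : ℂ × ℂ) : (‖p.1 - p.2‖ₑ)⁻¹ = ⨆ n, (tk n p : ℝ≥0∞) := by
  simp_rw [tk_eq]
  refine le_antisymm ?_ (iSup_le fun n => min_le_left _ _)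
  rcases eq_or_ne ((‖p.1 - p.2‖ₑ)⁻¹) ⊤ with h | h
  · rw [h]
    simp only [le_top, inf_of_le_right, top_le_iff]
    rw [eq_top_iff, ← ENNReal.iSup_natCast]
    exact iSup_mono fun n => le_self_add
  · obtain ⟨n, hn⟩ := ENNReal.exists_nat_gt h
    refine le_iSup_of_le n (le_min le_rfl (hn.le.trans le_self_add))

theorem tk_tail (n : ℕ) (x y : ℂ) :
    (‖x - y‖ₑ)⁻¹ = tk n (x, y) + ((‖x - y‖ₑ)⁻¹ - ((n : ℝ≥0∞) + 1)) := by
  rw [tk_eq]
  rcases le_total ((‖x - y‖ₑ)⁻¹) ((n : ℝ≥0∞) + 1) with h | h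
  · simp [min_eq_left h, tsub_eq_zero_of_le h]
  · simp only [min_eq_right h]
    rw [add_tsub_cancel_of_le h]

theorem tk_le (n : ℕ) (p : ℂ × ℂ) : (tk n p : ℝ≥0∞) ≤ (n : ℝ≥0∞) + 1 := by
  rw [tk_eq]; exact min_le_right _ _

/-- nearest point trick -/
theorem nearest {F : Set ℂ} (hF : IsCompact F) (hne : F.Nonempty) (x : ℂ) :
    ∃ x' ∈ F, ∀ y ∈ F, (‖x - y‖ₑ)⁻¹ ≤ 2 * (‖x' - y‖ₑ)⁻¹ := by
  obtain ⟨x', hx', hd⟩ := hF.exists_infDist_eq_dist hne x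
  refine ⟨x', hx', fun y hy => ?_⟩
  have h1 : dist x x' ≤ dist x y := hd ▸ Metric.infDist_le_dist_of_mem hy
  have h2 : ‖x' - y‖ ≤ 2 * ‖x - y‖ := by
    rw [← dist_eq_norm, ← dist_eq_norm]
    have := dist_triangle x' x y
    rw [dist_comm x' x] at this
    linarith
  have h3 : ‖x' - y‖ₑ ≤ 2 * ‖x - y‖ₑ := by
    rw [← ofReal_norm, ← ofReal_norm]
    calc ENNReal.ofReal ‖x' - y‖ ≤ ENNReal.ofReal (2 * ‖x - y‖) := ENNReal.ofReal_le_ofReal h2
      _ = _ := by rw [ENNReal.ofReal_mul (by norm_num)]; simp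
  have h4 : (2 * ‖x - y‖ₑ)⁻¹ ≤ (‖x' - y‖ₑ)⁻¹ := ENNReal.inv_le_inv.2 h3
  calc (‖x - y‖ₑ)⁻¹ = 2 * (2 * ‖x - y‖ₑ)⁻¹ := by
        rw [ENNReal.mul_inv (by simp) (by simp), ← mul_assoc,
          ENNReal.mul_inv_cancel (by simp) (by simp), one_mul]
    _ ≤ _ := by gcongr

set_option linter.unusedSectionVars false

section

variable {μ : Measure ℂ} [IsFiniteMeasure μ] {F : Set ℂ}

theorem tail_double (hF : IsCompact F) (hne : F.Nonempty) (x : ℂ) :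
    ∃ x' ∈ F, ∀ m : ℕ, ∫⁻ y in F, ((‖x - y‖ₑ)⁻¹ - (((2 * m + 1 : ℕ) : ℝ≥0∞) + 1)) ∂μ ≤
      2 * ∫⁻ y in F, ((‖x' - y‖ₑ)⁻¹ - ((m : ℝ≥0∞) + 1)) ∂μ := by
  obtain ⟨x', hx', h⟩ := nearest hF hne x
  refine ⟨x', hx', fun m => ?_⟩
  rw [← lintegral_const_mul' _ _ (by simp)]
  refine setLIntegral_mono' hF.measurableSet fun y hy => ?_
  rw [ENNReal.mul_sub (by simp)]
  refine (tsub_le_tsub_right (h y hy) _).trans (le_of_eq ?_)
  congr 1
  push_cast
  ring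

theorem tail_unif (hF : IsCompact F) (hne : F.Nonempty)
    (h : ∀ ε : ℝ≥0∞, 0 < ε → ∃ m : ℕ, ∀ x ∈ F, ∫⁻ y in F, ((‖x - y‖ₑ)⁻¹ - ((m : ℝ≥0∞) + 1)) ∂μ ≤ ε) :
    ∀ ε : ℝ≥0∞, 0 < ε → ∃ m : ℕ, ∀ x, ∫⁻ y in F, ((‖x - y‖ₑ)⁻¹ - ((m : ℝ≥0∞) + 1)) ∂μ ≤ ε := by
  intro ε hε
  obtain ⟨m, hm⟩ := h (ε / 2) (ENNReal.half_pos hε.ne')
  refine ⟨2 * m + 1, fun x => ?_⟩
  obtain ⟨x', hx', h'⟩ := tail_double (μ := μ) hF hne x
  refine (h' m).trans ?_
  calc _ ≤ 2 * (ε / 2) := by gcongr; exact hm x' hx'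
    _ = ε := ENNReal.mul_div_cancel (by simp) (by simp)

theorem trunc_cont (n : ℕ) : Continuous fun x => (∫⁻ y in F, (tk n (x, y) : ℝ≥0∞) ∂μ).toReal := by
  have h1 : ∀ x, (∫⁻ y in F, (tk n (x, y) : ℝ≥0∞) ∂μ).toReal = ∫ y in F, (tk n (x, y) : ℝ) ∂μ := by
    intro x
    have hc : Continuous fun y => (tk n (x, y) : ℝ) :=
      NNReal.continuous_coe.comp ((tk_cont n).comp (by fun_prop))
    rw [integral_eq_lintegral_of_nonneg_ae (Eventually.of_forall fun y => by positivity)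
      hc.aestronglyMeasurable]
    simp
  simp_rw [h1]
  refine continuous_of_dominated (bound := fun _ => (n : ℝ) + 1) (fun x => ?_) (fun x => ?_) ?_ ?_
  · have hc : Continuous fun y => (tk n (x, y) : ℝ) :=
      NNReal.continuous_coe.comp ((tk_cont n).comp (by fun_prop))
    exact hc.aestronglyMeasurable
  · refine Eventually.of_forall fun y => ?_
    rw [Real.norm_of_nonneg (by positivity)]
    have := tk_le n (x, y)
    have h2 : tk n (x, y) ≤ (n : ℝ≥0) + 1 := by exact_mod_cast this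
    exact_mod_cast h2
  · exact integrable_const _
  · refine Eventually.of_forall fun y => ?_
    exact NNReal.continuous_coe.comp ((tk_cont n).comp (by fun_prop))

theorem trunc_ne_top (n : ℕ) (x : ℂ) : ∫⁻ y in F, (tk n (x, y) : ℝ≥0∞) ∂μ ≠ ⊤ := by
  refine ne_top_of_le_ne_top ?_ (lintegral_mono fun y => tk_le n (x, y))
  rw [lintegral_const]
  exact ENNReal.mul_ne_top (by simp) (measure_ne_top _ _)

theorem pot_split (n : ℕ) (x : ℂ) : ∫⁻ y in F, (‖x - y‖ₑ)⁻¹ ∂μ =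
    (∫⁻ y in F, (tk n (x, y) : ℝ≥0∞) ∂μ) + ∫⁻ y in F, ((‖x - y‖ₑ)⁻¹ - ((n : ℝ≥0∞) + 1)) ∂μ := by
  rw [← lintegral_add_left]
  · exact lintegral_congr fun y => tk_tail n x y
  · have := tk_cont n
    have h : Continuous fun y => tk n (x, y) := this.comp (by fun_prop)
    exact h.measurable.coe_nnreal_ennreal

theorem pot_cont
    (h : ∀ ε : ℝ≥0∞, 0 < ε → ∃ m : ℕ, ∀ x, ∫⁻ y in F, ((‖x - y‖ₑ)⁻¹ - ((m : ℝ≥0∞) + 1)) ∂μ ≤ ε) :
    (∀ x, ∫⁻ y in F, (‖x - y‖ₑ)⁻¹ ∂μ ≠ ⊤) ∧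
    Continuous fun x => (∫⁻ y in F, (‖x - y‖ₑ)⁻¹ ∂μ).toReal := by
  have hfin : ∀ x, ∫⁻ y in F, (‖x - y‖ₑ)⁻¹ ∂μ ≠ ⊤ := by
    intro x
    obtain ⟨m, hm⟩ := h 1 one_pos
    rw [pot_split m x]
    exact ENNReal.add_ne_top.2 ⟨trunc_ne_top m x, ne_top_of_le_ne_top (by simp) (hm x)⟩
  refine ⟨hfin, ?_⟩
  refine continuous_of_uniform_approx_of_continuous fun u hu => ?_
  obtain ⟨ε, hε, hεu⟩ := Metric.mem_uniformity_dist.1 hu
  obtain ⟨m, hm⟩ := h (ENNReal.ofReal (ε / 2)) (by simpa using hε)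
  refine ⟨_, trunc_cont (μ := μ) (F := F) m, fun x => hεu ?_⟩
  have h1 : ∫⁻ y in F, ((‖x - y‖ₑ)⁻¹ - ((m : ℝ≥0∞) + 1)) ∂μ ≠ ⊤ :=
    ne_top_of_le_ne_top (by simp) (hm x)
  rw [pot_split m x, ENNReal.toReal_add (trunc_ne_top m x) h1, Real.dist_eq, add_sub_cancel_left,
    abs_of_nonneg ENNReal.toReal_nonneg]
  have h2 : (∫⁻ y in F, ((‖x - y‖ₑ)⁻¹ - ((m : ℝ≥0∞) + 1)) ∂μ).toReal ≤ ε / 2 :=
    ENNReal.toReal_le_of_le_ofReal (by positivity) (hm x)
  linarith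

theorem enorm_inv_eq {x y : ℂ} (h : 0 < ‖y - x‖) : (‖x - y‖ₑ)⁻¹ = ENNReal.ofReal (‖y - x‖⁻¹) := by
  rw [ENNReal.ofReal_inv_of_pos h, ofReal_norm, enorm_sub_rev]

theorem lintegral_pot {σ : Measure ℂ} {x : ℂ} {d : ℝ} (hd : 0 < d) (hx : ∀ᵐ y ∂σ, d ≤ ‖y - x‖) :
    ∫⁻ y, (‖x - y‖ₑ)⁻¹ ∂σ = ∫⁻ y, ENNReal.ofReal (‖y - x‖⁻¹) ∂σ := by
  refine lintegral_congr_ae ?_
  filter_upwards [hx] with y hy
  exact enorm_inv_eq (hd.trans_le hy)

theorem toReal_pot {σ : Measure ℂ} {x : ℂ} {d : ℝ} (hd : 0 < d) (hx : ∀ᵐ y ∂σ, d ≤ ‖y - x‖) :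
    (∫⁻ y, (‖x - y‖ₑ)⁻¹ ∂σ).toReal = ∫ y, ‖y - x‖⁻¹ ∂σ := by
  rw [lintegral_pot hd hx, integral_eq_lintegral_of_nonneg_ae (Eventually.of_forall fun y => by positivity)]
  have : Measurable fun y : ℂ => ‖y - x‖⁻¹ := by fun_prop
  exact this.aestronglyMeasurable

theorem dist_pos_of_notMem (hF : IsCompact F) (hne : F.Nonempty) {x : ℂ} (hx : x ∉ F) :
    ∃ d : ℝ, 0 < d ∧ ∀ y ∈ F, d ≤ ‖y - x‖ := by
  refine ⟨Metric.infDist x F, ?_, fun y hy => ?_⟩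
  · exact (hF.isClosed.notMem_iff_infDist_pos hne).1 hx
  · rw [← dist_eq_norm, dist_comm]
    exact Metric.infDist_le_dist_of_mem hy

/-- At a local maximum off the support the potential vanishes. -/
theorem no_local_max {σ : Measure ℂ} [IsFiniteMeasure σ] {x : ℂ} {d : ℝ} (hd : 0 < d)
    (hx : ∀ᵐ y ∂σ, d ≤ ‖y - x‖)
    (hmax : ∀ᶠ z in 𝓝 x, (∫⁻ y, (‖z - y‖ₑ)⁻¹ ∂σ).toReal ≤ (∫⁻ y, (‖x - y‖ₑ)⁻¹ ∂σ).toReal) :
    σ = 0 := by
  have hdir : ∀ e : ℂ, ‖e‖ = 1 →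
      0 ≤ -(∫ y, (3 * comp e (y - x) ^ 2 * (‖y - x‖⁻¹) ^ 5 - (‖y - x‖⁻¹) ^ 3) ∂σ) := by
    intro e he
    have hball : ∀ᶠ t in 𝓝 (0 : ℝ), t ∈ Metric.ball (0 : ℝ) (d / 2) :=
      Metric.ball_mem_nhds _ (by positivity)
    refine second_deriv_nonneg (w := fun t : ℝ => -∫ y, ‖(y - x) - t * e‖⁻¹ ∂σ)
      (w1 := fun t : ℝ => -∫ y, comp e ((y - x) - t * e) * (‖(y - x) - t * e‖⁻¹) ^ 3 ∂σ) ?_ ?_ ?_
    · filter_upwards [hball] with t ht
      exact (newton_deriv1 e he hd hx ht).neg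
    · exact (newton_deriv2 e he hd hx).neg
    · have hc : Tendsto (fun t : ℝ => x + t * e) (𝓝 0) (𝓝 x) := by
        have : Continuous fun t : ℝ => x + t * e := by fun_prop
        simpa using this.tendsto 0
      filter_upwards [hball, hc.eventually hmax] with t ht hmt
      have h1 : ∀ᵐ y ∂σ, d / 2 ≤ ‖y - (x + t * e)‖ := by
        filter_upwards [hx] with y hy
        have := line_bound e he hy ht
        rwa [← sub_sub]
      rw [toReal_pot (by positivity) h1, toReal_pot hd hx] at hmt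
      simp only [← sub_sub] at hmt
      simp only [Complex.ofReal_zero, zero_mul, sub_zero]
      linarith
  have h1 := hdir 1 (by simp)
  have h2 := hdir Complex.I (by simp)
  have h3 := newton_laplace hd hx
  have h4 : ∫ y, (‖y - x‖⁻¹) ^ 3 ∂σ ≤ 0 := by linarith
  have h5 : ∫ y, (‖y - x‖⁻¹) ^ 3 ∂σ = 0 :=
    le_antisymm h4 (integral_nonneg fun y => by positivity)
  have h6 := (integral_eq_zero_iff_of_nonneg (fun y => by positivity) (int_pow hd hx 3)).1 h5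
  have h7 : ∀ᵐ y ∂σ, False := by
    filter_upwards [h6, hx] with y hy hy'
    have h8 : 0 < ‖y - x‖ := by linarith
    have h9 : 0 < (‖y - x‖⁻¹) ^ 3 := by positivity
    simp only [Pi.zero_apply] at hy
    linarith
  rw [← Measure.measure_univ_eq_zero]
  simpa [ae_iff] using h7

theorem max_step (hF : IsCompact F) (hfin : ∀ x, ∫⁻ y in F, (‖x - y‖ₑ)⁻¹ ∂μ ≠ ⊤)
    (hcont : Continuous fun x => (∫⁻ y in F, (‖x - y‖ₑ)⁻¹ ∂μ).toReal) {V : ℝ} (hV : 0 ≤ V)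
    (hFV : ∀ x ∈ F, (∫⁻ y in F, (‖x - y‖ₑ)⁻¹ ∂μ).toReal ≤ V) (x : ℂ) :
    (∫⁻ y in F, (‖x - y‖ₑ)⁻¹ ∂μ).toReal ≤ V := by
  rcases F.eq_empty_or_nonempty with rfl | hne
  · simpa using hV
  by_contra hcon
  push Not at hcon
  set W : ℂ → ℝ := fun x => (∫⁻ y in F, (‖x - y‖ₑ)⁻¹ ∂μ).toReal with hW
  have hw0 : 0 < W x := hV.trans_lt hcon
  obtain ⟨D, hD⟩ := hF.isBounded.subset_closedBall 0
  set m : ℝ := (μ F).toReal with hm
  have hm0 : 0 ≤ m := ENNReal.toReal_nonneg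
  -- decay
  have hdecay : ∀ z : ℂ, D + (m + 1) / W x ≤ ‖z‖ → W z < W x := by
    intro z hz
    set L := (m + 1) / W x with hL
    have hL0 : 0 < L := by positivity
    have h1 : ∀ᵐ y ∂(μ.restrict F), L ≤ ‖y - z‖ := by
      filter_upwards [ae_restrict_mem hF.measurableSet] with y hy
      have h2 : ‖y‖ ≤ D := by simpa using hD hy
      have h3 := norm_sub_norm_le z y
      rw [norm_sub_rev] at h3
      linarith
    have h4 : W z = ∫ y, ‖y - z‖⁻¹ ∂(μ.restrict F) := toReal_pot hL0 h1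
    rw [h4]
    calc ∫ y, ‖y - z‖⁻¹ ∂(μ.restrict F) ≤ ∫ y, L⁻¹ ∂(μ.restrict F) := by
          refine integral_mono_ae ?_ (integrable_const _) ?_
          · exact int_inv hL0 h1
          · filter_upwards [h1] with y hy
            exact inv_anti₀ hL0 hy
      _ = m * L⁻¹ := by
          rw [integral_const, smul_eq_mul, measureReal_def, Measure.restrict_apply_univ]
      _ < W x := by
          rw [hL, inv_div, mul_div_assoc', div_lt_iff₀ (by positivity)]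
          nlinarith
  -- a global maximum
  set R : ℝ := max ‖x‖ (D + (m + 1) / W x) with hR
  obtain ⟨z, hz, hzmax⟩ := (isCompact_closedBall (0 : ℂ) R).exists_isMaxOn
    ⟨x, by simp [hR]⟩ hcont.continuousOn
  have hxz : W x ≤ W z := hzmax (by simp [hR])
  have hglob : ∀ y, W y ≤ W z := by
    intro y
    by_cases hy : y ∈ Metric.closedBall (0 : ℂ) R
    · exact hzmax hy
    · have h1 : R < ‖y‖ := by simpa using hy
      exact (hdecay y ((le_max_right _ _).trans h1.le)).le.trans hxz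
  have hzF : z ∉ F := by
    intro h
    have := hFV z h
    have h2 : W z ≤ V := this
    linarith
  obtain ⟨d, hd, hdF⟩ := dist_pos_of_notMem hF hne hzF
  have h0 := no_local_max (σ := μ.restrict F) hd
    ((ae_restrict_mem hF.measurableSet).mono fun y hy => hdF y hy)
    (Eventually.of_forall fun y => hglob y)
  have : W x = 0 := by
    simp [hW, h0]
  linarith

end

/-- The maximum principle: if the potential is at most `V` almost everywhere then it is at most `V`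
everywhere. -/
theorem max_principle {μ : Measure ℂ} [IsFiniteMeasure μ] {V : ℝ≥0∞} (hV : V ≠ ⊤)
    (h : ∀ᵐ x ∂μ, ∫⁻ y, (‖x - y‖ₑ)⁻¹ ∂μ ≤ V) (x : ℂ) : ∫⁻ y, (‖x - y‖ₑ)⁻¹ ∂μ ≤ V := by
  -- truncated potentials
  have hpotm : Measurable fun x => ∫⁻ y, (‖x - y‖ₑ)⁻¹ ∂μ := by
    refine Measurable.lintegral_prod_right' (f := fun p : ℂ × ℂ => (‖p.1 - p.2‖ₑ)⁻¹) ?_
    fun_prop
  have hTm : ∀ n : ℕ, Measurable fun x => ∫⁻ y, ((‖x - y‖ₑ)⁻¹ - ((n : ℝ≥0∞) + 1)) ∂μ := by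
    intro n
    refine Measurable.lintegral_prod_right'
      (f := fun p : ℂ × ℂ => (‖p.1 - p.2‖ₑ)⁻¹ - ((n : ℝ≥0∞) + 1)) ?_
    fun_prop
  -- main approximation
  have hmain : ∀ n : ℕ, ∀ ε : ℝ, 0 < ε → ∫⁻ y, (tk n (x, y) : ℝ≥0∞) ∂μ ≤
      V + ((n : ℝ≥0∞) + 1) * ENNReal.ofReal ε := by
    intro n ε hε
    set s : Set ℂ := {x | ∫⁻ y, (‖x - y‖ₑ)⁻¹ ∂μ ≤ V} with hs
    have hsm : MeasurableSet s := measurableSet_le hpotm measurable_const
    have hsc : μ sᶜ = 0 := by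
      rw [ae_iff] at h
      exact h
    -- Egorov
    obtain ⟨t, hts, htm, htε, hunif⟩ := tendstoUniformlyOn_of_ae_tendsto (μ := μ)
      (f := fun (n : ℕ) x => (∫⁻ y, ((‖x - y‖ₑ)⁻¹ - ((n : ℝ≥0∞) + 1)) ∂μ).toReal)
      (g := fun _ => (0 : ℝ)) (fun n => (hTm n).ennreal_toReal.stronglyMeasurable)
      stronglyMeasurable_const hsm (measure_ne_top _ _) (Eventually.of_forall fun x hx => by
        have hxf : ∫⁻ y, (‖x - y‖ₑ)⁻¹ ∂μ ≠ ⊤ := ne_top_of_le_ne_top hV hx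
        have hae : ∀ᵐ y ∂μ, (‖x - y‖ₑ)⁻¹ < ⊤ := ae_lt_top (by fun_prop) hxf
        have hlim : Tendsto (fun n : ℕ => ∫⁻ y, ((‖x - y‖ₑ)⁻¹ - ((n : ℝ≥0∞) + 1)) ∂μ) atTop
            (𝓝 (∫⁻ y, 0 ∂μ)) := by
          refine tendsto_lintegral_of_dominated_convergence (fun y => (‖x - y‖ₑ)⁻¹) (fun n => ?_)
            (fun n => Eventually.of_forall fun y => tsub_le_self) hxf ?_
          · fun_prop
          · filter_upwards [hae] with y hy
            obtain ⟨k, hk⟩ := ENNReal.exists_nat_gt hy.ne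
            refine tendsto_const_nhds.congr' ?_
            filter_upwards [eventually_ge_atTop k] with n hn
            rw [tsub_eq_zero_of_le]
            refine hk.le.trans ?_
            have : (k : ℝ≥0∞) ≤ n := by exact_mod_cast hn
            exact this.trans le_self_add
        simp only [lintegral_zero] at hlim
        have := (ENNReal.tendsto_toReal ENNReal.zero_ne_top).comp hlim
        rw [ENNReal.toReal_zero] at this
        exact this) (ε := ε / 2) (by positivity)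
    have hst : MeasurableSet (s \ t) := hsm.diff htm
    obtain ⟨F, hFst, hF, hFμ⟩ := hst.exists_isCompact_lt_add (μ := μ) (measure_ne_top _ _)
      (ε := ENNReal.ofReal (ε / 2)) (by simpa using hε)
    have hFc : μ Fᶜ ≤ ENNReal.ofReal ε := by
      have h1 : μ (s \ t) ≤ μ F + ENNReal.ofReal (ε / 2) := hFμ.le
      have h2 : μ ((s \ t) \ F) ≤ ENNReal.ofReal (ε / 2) := by
        rw [measure_sdiff hFst hF.measurableSet.nullMeasurableSet (measure_ne_top _ _)]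
        exact tsub_le_iff_left.2 h1
      have h3 : Fᶜ ⊆ sᶜ ∪ t ∪ ((s \ t) \ F) := by
        intro z hz
        by_cases h4 : z ∈ s
        · by_cases h5 : z ∈ t
          · exact Or.inl (Or.inr h5)
          · exact Or.inr ⟨⟨h4, h5⟩, hz⟩
        · exact Or.inl (Or.inl h4)
      calc μ Fᶜ ≤ μ (sᶜ ∪ t ∪ ((s \ t) \ F)) := measure_mono h3
        _ ≤ μ (sᶜ) + μ t + μ ((s \ t) \ F) :=
            (measure_union_le _ _).trans (add_le_add_left (measure_union_le _ _) _)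
        _ ≤ 0 + ENNReal.ofReal (ε / 2) + ENNReal.ofReal (ε / 2) := by
            gcongr
            exact hsc.le
        _ = ENNReal.ofReal ε := by
            rw [zero_add, ← ENNReal.ofReal_add (by positivity) (by positivity)]
            congr 1; ring
    -- the potential of the restriction is at most V everywhere
    have hW : ∫⁻ y in F, (‖x - y‖ₑ)⁻¹ ∂μ ≤ V := by
      rcases F.eq_empty_or_nonempty with rfl | hne
      · simp
      have htail : ∀ ε : ℝ≥0∞, 0 < ε → ∃ m : ℕ, ∀ x ∈ F,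
          ∫⁻ y in F, ((‖x - y‖ₑ)⁻¹ - ((m : ℝ≥0∞) + 1)) ∂μ ≤ ε := by
        intro ε' hε'
        obtain ⟨δ, hδ0, hδ⟩ : ∃ δ : ℝ, 0 < δ ∧ ENNReal.ofReal δ ≤ ε' := by
          rcases eq_or_ne ε' ⊤ with rfl | hne'
          · exact ⟨1, one_pos, le_top⟩
          · exact ⟨ε'.toReal, ENNReal.toReal_pos hε'.ne' hne', by rw [ENNReal.ofReal_toReal hne']⟩
        have h1 := (Metric.tendstoUniformlyOn_iff.1 hunif) δ hδ0
        obtain ⟨m, hm⟩ := h1.exists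
        refine ⟨m, fun z hz => ?_⟩
        have h2 := hm z (hFst hz)
        have h3 : ∫⁻ y, ((‖z - y‖ₑ)⁻¹ - ((m : ℝ≥0∞) + 1)) ∂μ ≠ ⊤ := by
          refine ne_top_of_le_ne_top hV ((lintegral_mono fun y => tsub_le_self).trans ?_)
          exact (hFst hz).1
        rw [Real.dist_eq, zero_sub, abs_neg, abs_of_nonneg ENNReal.toReal_nonneg] at h2
        refine (setLIntegral_le_lintegral _ _).trans (le_trans ?_ hδ)
        rw [← ENNReal.ofReal_toReal h3]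
        exact ENNReal.ofReal_le_ofReal h2.le
      have hunifall := tail_unif (μ := μ) hF hne htail
      obtain ⟨hfin, hcont⟩ := pot_cont (μ := μ) (F := F) hunifall
      have h4 := max_step (μ := μ) hF hfin hcont (V := V.toReal) ENNReal.toReal_nonneg
        (fun z hz => ENNReal.toReal_mono hV ((setLIntegral_le_lintegral _ _).trans (hFst hz).1)) x
      exact (ENNReal.toReal_le_toReal (hfin x) hV).1 h4
    calc ∫⁻ y, (tk n (x, y) : ℝ≥0∞) ∂μ =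
          (∫⁻ y in F, (tk n (x, y) : ℝ≥0∞) ∂μ) + ∫⁻ y in Fᶜ, (tk n (x, y) : ℝ≥0∞) ∂μ :=
            (lintegral_add_compl _ hF.measurableSet).symm
      _ ≤ V + ((n : ℝ≥0∞) + 1) * ENNReal.ofReal ε := by
          refine add_le_add ?_ ?_
          · refine le_trans (lintegral_mono fun y => ?_) hW
            rw [tk_eq]
            exact min_le_left _ _
          · calc ∫⁻ y in Fᶜ, (tk n (x, y) : ℝ≥0∞) ∂μ ≤ ∫⁻ y in Fᶜ, ((n : ℝ≥0∞) + 1) ∂μ :=
                  lintegral_mono fun y => tk_le n _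
              _ = ((n : ℝ≥0∞) + 1) * μ Fᶜ := by rw [setLIntegral_const]
              _ ≤ _ := by gcongr
  have hmain2 : ∀ n : ℕ, ∫⁻ y, (tk n (x, y) : ℝ≥0∞) ∂μ ≤ V := by
    intro n
    have hlim : Tendsto (fun ε : ℝ => V + ((n : ℝ≥0∞) + 1) * ENNReal.ofReal ε) (𝓝[>] 0) (𝓝 V) := by
      have h1 : Tendsto (fun ε : ℝ => ENNReal.ofReal ε) (𝓝[>] 0) (𝓝 0) := by
        have := ENNReal.continuous_ofReal.tendsto 0
        rw [ENNReal.ofReal_zero] at this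
        exact this.mono_left nhdsWithin_le_nhds
      have h2 := (ENNReal.Tendsto.const_mul h1 (Or.inr (by simp : ((n : ℝ≥0∞) + 1) ≠ ⊤))).const_add V
      simpa using h2
    refine ge_of_tendsto hlim ?_
    filter_upwards [self_mem_nhdsWithin] with ε hε
    exact hmain n ε hε
  have h1 : ∫⁻ y, (‖x - y‖ₑ)⁻¹ ∂μ = ⨆ n, ∫⁻ y, (tk n (x, y) : ℝ≥0∞) ∂μ := by
    rw [← lintegral_iSup]
    · exact lintegral_congr fun y => tk_iSup (x, y)
    · intro n
      have := tk_cont n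
      have h : Continuous fun y => tk n (x, y) := this.comp (by fun_prop)
      exact h.measurable.coe_nnreal_ennreal
    · intro m n hmn y
      exact ENNReal.coe_le_coe.2 (tk_mono hmn _)
  rw [h1]
  exact iSup_le hmain2

end Pool.Agent.Helper27.Cap
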