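import Pool.Agent.Helper27_Cap.LogDeriv
import Pool.Agent.Helper27_Cap.MaxPrinciple

/-!
# Comparison of Newtonian and logarithmic potentials in the plane
-/

namespace Pool.Agent.Helper27.Cap

open MeasureTheory Set Filter Topology Real
open scoped ENNReal NNReal

/-- Newtonian potential (real valued) -/
noncomputable def phi (σ : Measure ℂ) (x : ℂ) : ℝ := ∫ y, ‖y - x‖⁻¹ ∂σ

/-- the function `-log sin (π φ / 2)` -/
noncomputable def uu (σ : Measure ℂ) (x : ℂ) : ℝ := -Real.log (Real.sin (π / 2 * phi σ x))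

/-- smoothed logarithmic potential -/
noncomputable def pp (ν : Measure ℂ) (δ : ℝ) (x : ℂ) : ℝ := ∫ y, lk δ (y - x) ∂ν

section local_

variable {σ ν : Measure ℂ} [IsFiniteMeasure σ] [IsFiniteMeasure ν] {x : ℂ} {d δ : ℝ}

theorem phi_pos (hd : 0 < d) (hx : ∀ᵐ y ∂σ, d ≤ ‖y - x‖) (hσ : σ ≠ 0) : 0 < phi σ x := by
  rw [phi, integral_pos_iff_support_of_nonneg (fun y => by positivity) (int_inv hd hx)]
  have h1 : σ (Function.support fun y => ‖y - x‖⁻¹)ᶜ = 0 := by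
    have : ∀ᵐ y ∂σ, y ∈ Function.support fun y => ‖y - x‖⁻¹ := by
      filter_upwards [hx] with y hy
      rw [Function.mem_support]
      have : 0 < ‖y - x‖ := by linarith
      positivity
    exact this
  have h2 : σ univ ≤ σ (Function.support fun y => ‖y - x‖⁻¹) +
      σ (Function.support fun y => ‖y - x‖⁻¹)ᶜ := by
    rw [← union_compl_self (Function.support fun y => ‖y - x‖⁻¹)]
    exact measure_union_le _ _
  rw [h1, add_zero] at h2
  exact (Measure.measure_univ_ne_zero.2 hσ).bot_lt.trans_le h2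

theorem phi_cont (hd : 0 < d) (hx : ∀ᵐ y ∂σ, d ≤ ‖y - x‖) : ContinuousAt (phi σ) x := by
  unfold phi
  refine continuousAt_of_dominated (bound := fun _ => (d / 2)⁻¹) ?_ ?_ (integrable_const _) ?_
  · exact Eventually.of_forall fun z => by
      have : Measurable fun y : ℂ => ‖y - z‖⁻¹ := by fun_prop
      exact this.aestronglyMeasurable
  · filter_upwards [Metric.ball_mem_nhds x (show 0 < d / 2 by positivity)] with z hz
    filter_upwards [hx] with y hy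
    rw [Real.norm_of_nonneg (by positivity)]
    refine inv_anti₀ (by positivity) ?_
    have h1 : ‖z - x‖ < d / 2 := by simpa [dist_eq_norm] using hz
    have h2 : ‖y - x‖ ≤ ‖y - z‖ + ‖z - x‖ := by
      have := norm_add_le (y - z) (z - x)
      simpa using this
    linarith
  · filter_upwards [hx] with y hy
    have h1 : ‖y - x‖ ≠ 0 := by linarith
    exact ContinuousAt.inv₀ (by fun_prop) h1

theorem sin_pos_of (h0 : 0 < phi σ x) (h1 : phi σ x ≤ 1) : 0 < Real.sin (π / 2 * phi σ x) := by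
  have := Real.pi_pos
  exact Real.sin_pos_of_pos_of_lt_pi (by positivity) (by nlinarith)

theorem uu_nonneg (h0 : 0 < phi σ x) (h1 : phi σ x ≤ 1) : 0 ≤ uu σ x := by
  rw [uu, neg_nonneg]
  exact Real.log_nonpos (sin_pos_of h0 h1).le (Real.sin_le_one _)

/-- no local minimum off the support -/
theorem no_local_min (hd : 0 < d) (hx : ∀ᵐ y ∂σ, d ≤ ‖y - x‖) (hσ : σ ≠ 0)
    (hU : ∀ z : ℂ, ∫⁻ y, (‖z - y‖ₑ)⁻¹ ∂σ ≤ 1) (hν : ν ≠ 0) (hδ : 0 < δ)
    (hint : ∀ x, Integrable (fun y => lk δ (y - x)) ν) {s : ℝ} (hs : 0 < s)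
    (hmin : ∀ᶠ z in 𝓝 x, uu σ x + s * pp ν δ x ≤ uu σ z + s * pp ν δ z) : False := by
  set q : ℝ := π / 2 * phi σ x with hq
  have hφ0 : 0 < phi σ x := phi_pos hd hx hσ
  have hφ1 : phi σ x ≤ 1 := pot_le_one hd hx hU
  have hsin : 0 < Real.sin q := sin_pos_of hφ0 hφ1
  -- one direction
  have hdir : ∀ e : ℂ, ‖e‖ = 1 → 0 ≤
      (-(π / 2) * (∫ y, (3 * comp e (y - x) ^ 2 * (‖y - x‖⁻¹) ^ 5 - (‖y - x‖⁻¹) ^ 3) ∂σ) *
          (Real.cos q / Real.sin q) +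
        (π / 2) ^ 2 * (∫ y, comp e (y - x) * (‖y - x‖⁻¹) ^ 3 ∂σ) ^ 2 / (Real.sin q) ^ 2) +
      s * (∫ y, (2 * comp e (y - x) ^ 2 / (‖y - x‖ ^ 2 + δ ^ 2) ^ 2 - 1 / (‖y - x‖ ^ 2 + δ ^ 2)) ∂ν) := by
    intro e he
    have hball : ∀ᶠ t in 𝓝 (0 : ℝ), t ∈ Metric.ball (0 : ℝ) (d / 2) :=
      Metric.ball_mem_nhds _ (by positivity)
    set f : ℝ → ℝ := fun t => ∫ y, ‖(y - x) - t * e‖⁻¹ ∂σ with hf
    set f1 : ℝ → ℝ := fun t => ∫ y, comp e ((y - x) - t * e) * (‖(y - x) - t * e‖⁻¹) ^ 3 ∂σ with hf1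
    set f2 : ℝ := ∫ y, (3 * comp e (y - x) ^ 2 * (‖y - x‖⁻¹) ^ 5 - (‖y - x‖⁻¹) ^ 3) ∂σ with hf2
    set g1 : ℝ → ℝ := fun t => ∫ y, comp e ((y - x) - t * e) / (‖(y - x) - t * e‖ ^ 2 + δ ^ 2) ∂ν with hg1
    have hline : ∀ t ∈ Metric.ball (0 : ℝ) (d / 2), ∀ᵐ y ∂σ, d / 2 ≤ ‖y - (x + t * e)‖ := by
      intro t ht
      filter_upwards [hx] with y hy
      have := line_bound e he hy ht
      rwa [← sub_sub]
    have hfphi : ∀ t : ℝ, phi σ (x + t * e) = f t := by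
      intro t; simp only [phi, hf, ← sub_sub]
    have hf0 : f 0 = phi σ x := by rw [← hfphi]; simp
    have hfd : ∀ t ∈ Metric.ball (0 : ℝ) (d / 2), HasDerivAt f (f1 t) t :=
      fun t ht => newton_deriv1 e he hd hx ht
    have hf1d : HasDerivAt f1 f2 0 := newton_deriv2 e he hd hx
    have hsint : ∀ t ∈ Metric.ball (0 : ℝ) (d / 2), 0 < Real.sin (π / 2 * f t) := by
      intro t ht
      rw [← hfphi]
      exact sin_pos_of (phi_pos (half_pos hd) (hline t ht) hσ) (pot_le_one (half_pos hd) (hline t ht) hU)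
    have hud : ∀ t ∈ Metric.ball (0 : ℝ) (d / 2), HasDerivAt (fun t : ℝ => -Real.log (Real.sin (π / 2 * f t)))
        (-(π / 2) * (f1 t * (Real.cos (π / 2 * f t) / Real.sin (π / 2 * f t)))) t := by
      intro t ht
      have h1 := (((hfd t ht).const_mul (π / 2)).sin.log (hsint t ht).ne').neg
      refine HasDerivAt.congr_deriv (f := fun t : ℝ => -Real.log (Real.sin (π / 2 * f t))) h1 ?_
      ring
    have h00 : (0 : ℝ) ∈ Metric.ball (0 : ℝ) (d / 2) := by simpa using hd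
    have hq0 : π / 2 * f 0 = q := by rw [hf0]
    have hu2 : HasDerivAt (fun t : ℝ => -(π / 2) * (f1 t * (Real.cos (π / 2 * f t) / Real.sin (π / 2 * f t))))
        (-(π / 2) * f2 * (Real.cos q / Real.sin q) + (π / 2) ^ 2 * f1 0 ^ 2 / (Real.sin q) ^ 2) 0 := by
      have h1 := (hfd 0 h00).const_mul (π / 2)
      have h2 := (hf1d.mul (h1.cos.div h1.sin (hsint 0 h00).ne')).const_mul (-(π / 2))
      refine HasDerivAt.congr_deriv
        (f := fun t : ℝ => -(π / 2) * (f1 t * (Real.cos (π / 2 * f t) / Real.sin (π / 2 * f t)))) h2 ?_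
      simp only [Pi.div_apply]
      rw [hq0]
      have hsc := Real.sin_sq_add_cos_sq q
      field_simp
      linear_combination (π * f1 0 ^ 2) * hsc
    have hp1 : ∀ t : ℝ, HasDerivAt (fun t : ℝ => ∫ y, lk δ ((y - x) - t * e) ∂ν) (g1 t) t :=
      fun t => log_deriv1 hδ hint x e he t
    have hp2 := log_deriv2 (ν := ν) hδ x e he
    have hfin := second_deriv_nonneg
      (w := fun t : ℝ => -Real.log (Real.sin (π / 2 * f t)) + s * ∫ y, lk δ ((y - x) - t * e) ∂ν)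
      (w1 := fun t : ℝ => -(π / 2) * (f1 t * (Real.cos (π / 2 * f t) / Real.sin (π / 2 * f t))) + s * g1 t)
      (hball.mono fun t ht => (hud t ht).add ((hp1 t).const_mul s)) (hu2.add (hp2.const_mul s)) ?_
    · have h3 : f1 0 = ∫ y, comp e (y - x) * (‖y - x‖⁻¹) ^ 3 ∂σ := by simp [hf1]
      rw [h3] at hfin
      exact hfin
    · have hc : Tendsto (fun t : ℝ => x + t * e) (𝓝 0) (𝓝 x) := by
        have : Continuous fun t : ℝ => x + t * e := by fun_prop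
        simpa using this.tendsto 0
      filter_upwards [hc.eventually hmin] with t hmt
      have h4 : ∀ t : ℝ, uu σ (x + t * e) + s * pp ν δ (x + t * e) =
          -Real.log (Real.sin (π / 2 * f t)) + s * ∫ y, lk δ ((y - x) - t * e) ∂ν := by
        intro t
        simp only [uu, pp, hfphi, ← sub_sub]
      have h5 := h4 0
      rw [Complex.ofReal_zero, zero_mul, add_zero] at h5
      rw [h4 t, h5] at hmt
      simpa using hmt
  have h1 := hdir 1 (by simp)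
  have h2 := hdir Complex.I (by simp)
  have h3 := newton_laplace hd hx
  have h4 := log_laplace (ν := ν) hδ hν x
  have h5 := diff_ineq hd hx hU
  have hre : (∫ y, comp 1 (y - x) * (‖y - x‖⁻¹) ^ 3 ∂σ) = ∫ y, (y - x).re * (‖y - x‖⁻¹) ^ 3 ∂σ := by
    simp [comp]
  have him : (∫ y, comp Complex.I (y - x) * (‖y - x‖⁻¹) ^ 3 ∂σ) = ∫ y, (y - x).im * (‖y - x‖⁻¹) ^ 3 ∂σ := by
    simp [comp]
  rw [hre] at h1
  rw [him] at h2
  set A1 := ∫ y, (3 * comp 1 (y - x) ^ 2 * (‖y - x‖⁻¹) ^ 5 - (‖y - x‖⁻¹) ^ 3) ∂σ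
  set A2 := ∫ y, (3 * comp Complex.I (y - x) ^ 2 * (‖y - x‖⁻¹) ^ 5 - (‖y - x‖⁻¹) ^ 3) ∂σ
  set M := ∫ y, (‖y - x‖⁻¹) ^ 3 ∂σ
  set vr := ∫ y, (y - x).re * (‖y - x‖⁻¹) ^ 3 ∂σ
  set vi := ∫ y, (y - x).im * (‖y - x‖⁻¹) ^ 3 ∂σ
  set B1 := ∫ y, (2 * comp 1 (y - x) ^ 2 / (‖y - x‖ ^ 2 + δ ^ 2) ^ 2 - 1 / (‖y - x‖ ^ 2 + δ ^ 2)) ∂ν
  set B2 := ∫ y, (2 * comp Complex.I (y - x) ^ 2 / (‖y - x‖ ^ 2 + δ ^ 2) ^ 2 -
        1 / (‖y - x‖ ^ 2 + δ ^ 2)) ∂ν
  have h6 : Real.sin (π * ∫ y, ‖y - x‖⁻¹ ∂σ) = 2 * Real.sin q * Real.cos q := by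
    rw [← Real.sin_two_mul, hq, phi]
    congr 1
    ring
  rw [h6] at h5
  have h7 : (π / 2) ^ 2 * (vr ^ 2 + vi ^ 2) / Real.sin q ^ 2 ≤ π / 2 * M * (Real.cos q / Real.sin q) := by
    rw [div_le_iff₀ (by positivity)]
    have h8 : π / 2 * M * (Real.cos q / Real.sin q) * Real.sin q ^ 2 =
        π / 4 * (2 * Real.sin q * Real.cos q * M) := by
      field_simp
      ring
    rw [h8]
    have := Real.pi_pos
    nlinarith
  have h9 : s * (B1 + B2) < 0 := mul_neg_of_pos_of_neg hs h4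
  have h10 : (π / 2) ^ 2 * vr ^ 2 / Real.sin q ^ 2 + (π / 2) ^ 2 * vi ^ 2 / Real.sin q ^ 2 =
      (π / 2) ^ 2 * (vr ^ 2 + vi ^ 2) / Real.sin q ^ 2 := by ring
  have h11 : -(π / 2) * A1 * (Real.cos q / Real.sin q) + -(π / 2) * A2 * (Real.cos q / Real.sin q) =
      -(π / 2 * M * (Real.cos q / Real.sin q)) := by
    rw [← h3]; ring
  linarith

end local_

end Pool.Agent.Helper27.Cap
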