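import Pool.Agent.Helper27_Cap.Compare

/-!
# Global comparison: the smoothed logarithmic energy is at most `-log (π c / 2)`
-/

namespace Pool.Agent.Helper27.Cap

open MeasureTheory Set Filter Topology Real
open scoped ENNReal NNReal

section global

variable {K : Set ℂ} {σ ν : Measure ℂ} [IsFiniteMeasure σ] [IsFiniteMeasure ν] {δ D : ℝ}

theorem restrict_self_of_compl {ρ : Measure ℂ} (h : ρ Kᶜ = 0) : ρ.restrict K = ρ :=
  Measure.restrict_eq_self_of_ae_mem (by rw [ae_iff]; exact h)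

theorem lk_int (hK : IsCompact K) (hνK : ν Kᶜ = 0) (hδ : 0 < δ) (x : ℂ) :
    Integrable (fun y => lk δ (y - x)) ν := by
  have h1 : IntegrableOn (fun y => lk δ (y - x)) K ν :=
    ((lk_cont hδ).comp (by fun_prop)).continuousOn.integrableOn_compact hK
  rwa [IntegrableOn, restrict_self_of_compl hνK] at h1

theorem pp_cont (hK : IsCompact K) (hνK : ν Kᶜ = 0) (hδ : 0 < δ) : Continuous (pp ν δ) := by
  have h1 : Continuous fun x => ∫ y in K, lk δ (y - x) ∂ν := by
    refine continuous_parametric_integral_of_continuous ?_ hK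
    unfold Function.uncurry
    exact (lk_cont hδ).comp (by fun_prop)
  rwa [restrict_self_of_compl hνK] at h1

theorem ae_mem_of_compl {ρ : Measure ℂ} (h : ρ Kᶜ = 0) : ∀ᵐ y ∂ρ, y ∈ K := by
  rw [ae_iff]; exact h

/-- bounds of the potentials far away -/
theorem far_dist (hKD : K ⊆ Metric.closedBall 0 D) {z : ℂ} :
    ∀ y ∈ K, ‖z‖ - D ≤ ‖y - z‖ ∧ ‖y - z‖ ≤ ‖z‖ + D := by
  intro y hy
  have h2 : ‖y‖ ≤ D := by simpa using hKD hy
  have h3 := norm_sub_norm_le z y
  have h4 := norm_sub_le y z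
  rw [norm_sub_rev] at h3
  constructor <;> linarith

theorem phi_le_far (hσK : σ Kᶜ = 0) (hKD : K ⊆ Metric.closedBall 0 D) {z : ℂ} (hz : D < ‖z‖) :
    phi σ z ≤ (σ univ).toReal / (‖z‖ - D) := by
  have h0 : 0 < ‖z‖ - D := by linarith
  have h1 : ∀ᵐ y ∂σ, ‖z‖ - D ≤ ‖y - z‖ := (ae_mem_of_compl hσK).mono fun y hy => (far_dist hKD y hy).1
  calc phi σ z ≤ ∫ y, (‖z‖ - D)⁻¹ ∂σ :=
        integral_mono_ae (int_inv h0 h1) (integrable_const _) (h1.mono fun y hy => inv_anti₀ h0 hy)
    _ = _ := by rw [integral_const, smul_eq_mul, measureReal_def, div_eq_mul_inv]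

theorem phi_ge_far (hσK : σ Kᶜ = 0) (hKD : K ⊆ Metric.closedBall 0 D) {z : ℂ} (hz : D < ‖z‖) :
    (σ univ).toReal / (‖z‖ + D) ≤ phi σ z := by
  have h0 : 0 < ‖z‖ - D := by linarith
  have h1 : ∀ᵐ y ∂σ, ‖z‖ - D ≤ ‖y - z‖ := (ae_mem_of_compl hσK).mono fun y hy => (far_dist hKD y hy).1
  have h2 : ∀ᵐ y ∂σ, ‖y - z‖ ≤ ‖z‖ + D := (ae_mem_of_compl hσK).mono fun y hy => (far_dist hKD y hy).2
  calc (σ univ).toReal / (‖z‖ + D) = ∫ y, (‖z‖ + D)⁻¹ ∂σ := by
        rw [integral_const, smul_eq_mul, measureReal_def, div_eq_mul_inv]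
    _ ≤ _ := integral_mono_ae (integrable_const _) (int_inv h0 h1) (by
        filter_upwards [h1, h2] with y hy hy'
        exact inv_anti₀ (by linarith) hy')

theorem pp_ge_far [IsProbabilityMeasure ν] (hK : IsCompact K) (hνK : ν Kᶜ = 0) (hδ : 0 < δ)
    (hKD : K ⊆ Metric.closedBall 0 D) (z : ℂ) :
    -(1 / 2) * Real.log ((‖z‖ + D) ^ 2 + δ ^ 2) ≤ pp ν δ z := by
  calc -(1 / 2) * Real.log ((‖z‖ + D) ^ 2 + δ ^ 2) =
        ∫ y, -(1 / 2) * Real.log ((‖z‖ + D) ^ 2 + δ ^ 2) ∂ν := by simp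
    _ ≤ _ := integral_mono_ae (integrable_const _) (lk_int hK hνK hδ z) (by
        filter_upwards [ae_mem_of_compl hνK] with y hy
        have h1 := (far_dist hKD (z := z) y hy).2
        unfold lk
        refine mul_le_mul_of_nonpos_left ?_ (by norm_num)
        refine Real.log_le_log (by positivity) ?_
        gcongr)

theorem pp_le_far [IsProbabilityMeasure ν] (hK : IsCompact K) (hνK : ν Kᶜ = 0) (hδ : 0 < δ)
    (hKD : K ⊆ Metric.closedBall 0 D) {z : ℂ} (hz : D < ‖z‖) :
    pp ν δ z ≤ -Real.log (‖z‖ - D) := by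
  have h0 : 0 < ‖z‖ - D := by linarith
  calc pp ν δ z ≤ ∫ y, -Real.log (‖z‖ - D) ∂ν := integral_mono_ae (lk_int hK hνK hδ z)
        (integrable_const _) (by
        filter_upwards [ae_mem_of_compl hνK] with y hy
        have h1 := (far_dist hKD (z := z) y hy).1
        unfold lk
        have h2 : Real.log ((‖z‖ - D) ^ 2) ≤ Real.log (‖y - z‖ ^ 2 + δ ^ 2) := by
          refine Real.log_le_log (by positivity) ?_
          nlinarith [sq_nonneg δ]
        rw [Real.log_pow] at h2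
        push_cast at h2
        linarith)
    _ = _ := by simp

theorem far_growth {D δ s I a : ℝ} (hs0 : 0 < s) (hs1 : s < 1) (hD : 0 ≤ D) :
    Tendsto (fun r : ℝ => (Real.log (r - D) - Real.log a) +
      s * (-(1 / 2) * Real.log ((r + D) ^ 2 + δ ^ 2) - I)) atTop atTop := by
  have h1 : Tendsto (fun r : ℝ => (1 - s) * Real.log r +
      (- Real.log 2 - Real.log a - s * Real.log 2 - s * I)) atTop atTop := by
    refine tendsto_atTop_add_const_right _ _ ?_
    exact (Real.tendsto_log_atTop).const_mul_atTop (by linarith)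
  refine tendsto_atTop_mono' _ ?_ h1
  filter_upwards [eventually_ge_atTop (2 * D + 2 * |δ| + 1)] with r hr
  have hδ0 := abs_nonneg δ
  have hr0 : 0 < r := by linarith
  have h2 : Real.log r - Real.log 2 ≤ Real.log (r - D) := by
    rw [← Real.log_div hr0.ne' (by norm_num)]
    exact Real.log_le_log (by positivity) (by linarith)
  have h3 : Real.log ((r + D) ^ 2 + δ ^ 2) ≤ 2 * Real.log 2 + 2 * Real.log r := by
    have h4 : (r + D) ^ 2 + δ ^ 2 ≤ (2 * r) ^ 2 := by
      rw [← sq_abs δ]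
      nlinarith
    have h5 : 2 * Real.log 2 + 2 * Real.log r = Real.log ((2 * r) ^ 2) := by
      rw [Real.log_pow, Real.log_mul (by norm_num) hr0.ne']
      push_cast
      ring
    rw [h5]
    exact Real.log_le_log (by positivity) h4
  nlinarith

/-- the comparison function is nonnegative off `K` -/
theorem compare_aux [IsProbabilityMeasure ν] (hK : IsCompact K) (hne : K.Nonempty) (hσ : σ ≠ 0)
    (hσK : σ Kᶜ = 0) (hνK : ν Kᶜ = 0)
    (hU : ∀ z : ℂ, ∫⁻ y, (‖z - y‖ₑ)⁻¹ ∂σ ≤ 1) (hδ : 0 < δ) {I : ℝ} (hI : ∀ x ∈ K, I ≤ pp ν δ x)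
    {s : ℝ} (hs0 : 0 < s) (hs1 : s < 1) {x : ℂ} (hx : x ∉ K) : 0 ≤ uu σ x + s * (pp ν δ x - I) := by
  by_contra hcon
  push Not at hcon
  set w : ℂ → ℝ := fun z => uu σ z + s * (pp ν δ z - I) with hw
  have hwx : w x < 0 := hcon
  have hpc := pp_cont (ν := ν) hK hνK hδ
  have hdist : ∀ z ∉ K, ∃ d : ℝ, 0 < d ∧ ∀ᵐ y ∂σ, d ≤ ‖y - z‖ := by
    intro z hz
    obtain ⟨d, hd, hdK⟩ := dist_pos_of_notMem hK hne hz
    exact ⟨d, hd, (ae_mem_of_compl hσK).mono hdK⟩
  have hphi : ∀ z ∉ K, 0 < phi σ z ∧ phi σ z ≤ 1 := by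
    intro z hz
    obtain ⟨d, hd, hdK⟩ := hdist z hz
    exact ⟨phi_pos hd hdK hσ, pot_le_one hd hdK hU⟩
  have hu0 : ∀ z ∉ K, 0 ≤ uu σ z := fun z hz => uu_nonneg (hphi z hz).1 (hphi z hz).2
  have hwc : ContinuousOn w Kᶜ := by
    intro z hz
    obtain ⟨d, hd, hdK⟩ := hdist z hz
    have h1 : ContinuousAt (uu σ) z := by
      have h2 : ContinuousAt (fun z => Real.sin (π / 2 * phi σ z)) z :=
        Real.continuous_sin.continuousAt.comp (continuousAt_const.mul (phi_cont hd hdK))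
      exact (h2.log (sin_pos_of (hphi z hz).1 (hphi z hz).2).ne').neg
    exact (h1.add ((hpc.continuousAt.sub continuousAt_const).const_mul s)).continuousWithinAt
  obtain ⟨D, hD0, hKD⟩ : ∃ D : ℝ, 0 ≤ D ∧ K ⊆ Metric.closedBall 0 D := by
    obtain ⟨D, hD⟩ := hK.isBounded.subset_closedBall 0
    exact ⟨max D 0, le_max_right _ _, hD.trans (Metric.closedBall_subset_closedBall (le_max_left _ _))⟩
  set c : ℝ := (σ univ).toReal with hc
  have hc0 : 0 < c := ENNReal.toReal_pos (Measure.measure_univ_ne_zero.2 hσ) (measure_ne_top _ _)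
  have hpi := Real.pi_pos
  -- growth
  obtain ⟨R, hR⟩ : ∃ R : ℝ, D < R ∧ ∀ z : ℂ, R ≤ ‖z‖ → w x < w z := by
    have h1 := (far_growth (δ := δ) (I := I) (a := π / 2 * c) hs0 hs1 hD0).eventually_gt_atTop (w x)
    obtain ⟨R, hR⟩ := (h1.and (eventually_gt_atTop D)).exists_forall_of_atTop
    refine ⟨R, (hR R le_rfl).2, fun z hz => (hR ‖z‖ hz).1.trans_le ?_⟩
    have hzD : D < ‖z‖ := (hR ‖z‖ hz).2
    have hzK : z ∉ K := by
      intro h
      have := hKD h
      rw [mem_closedBall_zero_iff] at this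
      linarith
    have h0 : 0 < ‖z‖ - D := by linarith
    have h2 : Real.log (‖z‖ - D) - Real.log (π / 2 * c) ≤ uu σ z := by
      have h3 := phi_le_far (σ := σ) hσK hKD hzD
      have h4 : Real.sin (π / 2 * phi σ z) ≤ π / 2 * c / (‖z‖ - D) := by
        refine (Real.sin_le (by have := (hphi z hzK).1; positivity)).trans ?_
        rw [mul_div_assoc]
        gcongr
      have h5 := Real.log_le_log (sin_pos_of (hphi z hzK).1 (hphi z hzK).2) h4
      rw [Real.log_div (by positivity) h0.ne'] at h5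
      unfold uu
      linarith
    have h6 := pp_ge_far (ν := ν) hK hνK hδ hKD z
    simp only [hw]
    nlinarith
  -- the compact set of candidates
  set C : Set ℂ := {z | s * (pp ν δ z - I) ≤ w x} ∩ Metric.closedBall 0 (max R ‖x‖) with hC
  have hCK : C ⊆ Kᶜ := by
    intro z hz hzK
    have h1 := hI z hzK
    have h2 : s * (pp ν δ z - I) ≤ w x := hz.1
    nlinarith
  have hCc : IsCompact C := by
    refine IsCompact.inter_left (isCompact_closedBall _ _) ?_
    exact isClosed_le ((hpc.sub continuous_const).const_mul s) continuous_const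
  have hxC : x ∈ C := by
    refine ⟨?_, by simp⟩
    show s * (pp ν δ x - I) ≤ w x
    have := hu0 x hx
    simp only [hw]
    linarith
  obtain ⟨z, hzC, hzmin⟩ := hCc.exists_isMinOn ⟨x, hxC⟩ (hwc.mono hCK)
  have hzx : w z ≤ w x := hzmin hxC
  have hglob : ∀ y ∉ K, w z ≤ w y := by
    intro y hy
    by_cases h1 : y ∈ C
    · exact hzmin h1
    · by_cases h2 : y ∈ Metric.closedBall (0 : ℂ) (max R ‖x‖)
      · have h3 : ¬ s * (pp ν δ y - I) ≤ w x := fun h => h1 ⟨h, h2⟩
        push Not at h3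
        have h4 := hu0 y hy
        have h5 : w y = uu σ y + s * (pp ν δ y - I) := rfl
        linarith
      · have h3 : max R ‖x‖ < ‖y‖ := by simpa using h2
        exact hzx.trans (hR.2 y ((le_max_left _ _).trans h3.le)).le
  obtain ⟨d, hd, hdK⟩ := hdist z (hCK hzC)
  refine no_local_min (ν := ν) hd hdK hσ hU (NeZero.ne ν) hδ (fun x => lk_int hK hνK hδ x) hs0 ?_
  filter_upwards [hK.isClosed.isOpen_compl.mem_nhds (hCK hzC)] with y hy
  have h1 := hglob y hy
  simp only [hw] at h1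
  linarith

theorem compare_limit {D a : ℝ} (hD : 0 ≤ D) (ha : 0 < a) :
    Tendsto (fun r : ℝ => (r - D) * Real.sin (a / (r + D))) atTop (𝓝 a) := by
  have h1 : Tendsto (fun r : ℝ => a / (r + D)) atTop (𝓝 0) := by
    refine Tendsto.div_atTop tendsto_const_nhds (tendsto_atTop_add_const_right _ _ tendsto_id)
  have h2 : Tendsto (fun r : ℝ => Real.sinc (a / (r + D))) atTop (𝓝 1) := by
    have := (Real.continuous_sinc.tendsto 0).comp h1
    rwa [Real.sinc_zero] at this
  have h3 : Tendsto (fun r : ℝ => a - 2 * D * (a / (r + D))) atTop (𝓝 a) := by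
    have := (h1.const_mul (2 * D)).const_sub a
    simpa using this
  have h4 := h3.mul h2
  rw [mul_one] at h4
  refine h4.congr' ?_
  filter_upwards [eventually_gt_atTop D] with r hr
  have h5 : 0 < r + D := by linarith
  rw [Real.sinc_of_ne_zero (by positivity)]
  field_simp
  ring

/-- The smoothed energy bound. -/
theorem compare [IsProbabilityMeasure ν] (hK : IsCompact K) (hne : K.Nonempty) (hσ : σ ≠ 0)
    (hσK : σ Kᶜ = 0) (hνK : ν Kᶜ = 0)
    (hU : ∀ z : ℂ, ∫⁻ y, (‖z - y‖ₑ)⁻¹ ∂σ ≤ 1) (hδ : 0 < δ) {I : ℝ} (hI : ∀ x ∈ K, I ≤ pp ν δ x) :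
    I ≤ -Real.log (π / 2 * (σ univ).toReal) := by
  obtain ⟨D, hD0, hKD⟩ : ∃ D : ℝ, 0 ≤ D ∧ K ⊆ Metric.closedBall 0 D := by
    obtain ⟨D, hD⟩ := hK.isBounded.subset_closedBall 0
    exact ⟨max D 0, le_max_right _ _, hD.trans (Metric.closedBall_subset_closedBall (le_max_left _ _))⟩
  set c : ℝ := (σ univ).toReal with hc
  have hc0 : 0 < c := ENNReal.toReal_pos (Measure.measure_univ_ne_zero.2 hσ) (measure_ne_top _ _)
  have hpi := Real.pi_pos
  -- s → 1
  have h1 : ∀ x ∉ K, I ≤ uu σ x + pp ν δ x := by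
    intro x hx
    have hlim : Tendsto (fun s : ℝ => uu σ x + s * (pp ν δ x - I)) (𝓝[<] 1)
        (𝓝 (uu σ x + 1 * (pp ν δ x - I))) := by
      have : Continuous fun s : ℝ => uu σ x + s * (pp ν δ x - I) := by fun_prop
      exact (this.tendsto 1).mono_left nhdsWithin_le_nhds
    have h2 : 0 ≤ uu σ x + 1 * (pp ν δ x - I) := by
      refine ge_of_tendsto hlim ?_
      have h3 : Ioo (0 : ℝ) 1 ∈ 𝓝[<] (1 : ℝ) := Ioo_mem_nhdsLT (by norm_num)
      filter_upwards [h3] with s hs
      exact compare_aux hK hne hσ hσK hνK hU hδ hI hs.1 hs.2 hx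
    linarith
  -- x → ∞
  have h2 : ∀ r : ℝ, D < r → (r - D) * Real.sin (π / 2 * c / (r + D)) ≤ Real.exp (-I) := by
    intro r hr
    have hr0 : 0 < r := by linarith
    have hz : ‖(r : ℂ)‖ = r := by rw [Complex.norm_real, Real.norm_of_nonneg hr0.le]
    have hzD : D < ‖(r : ℂ)‖ := by rw [hz]; exact hr
    have hzK : (r : ℂ) ∉ K := by
      intro h
      have := hKD h
      rw [mem_closedBall_zero_iff] at this
      linarith
    have hae : ∀ᵐ y ∂σ, r - D ≤ ‖y - (r : ℂ)‖ := (ae_mem_of_compl hσK).mono fun y hy => by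
      have := (far_dist hKD (z := (r : ℂ)) y hy).1
      rwa [hz] at this
    have hrD : 0 < r - D := by linarith
    have hφ1 : phi σ r ≤ 1 := pot_le_one hrD hae hU
    have hφ2 : c / (r + D) ≤ phi σ r := by
      have := phi_ge_far (σ := σ) hσK hKD hzD
      rwa [hz] at this
    have hcr : 0 < c / (r + D) := by positivity
    have h3 : Real.sin (π / 2 * c / (r + D)) ≤ Real.sin (π / 2 * phi σ r) := by
      refine Real.sin_le_sin_of_le_of_le_pi_div_two ?_ ?_ ?_
      · have : 0 < π / 2 * c / (r + D) := by positivity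
        linarith
      · nlinarith
      · rw [mul_div_assoc]
        gcongr
    have h4 : 0 < Real.sin (π / 2 * c / (r + D)) := by
      refine Real.sin_pos_of_pos_of_lt_pi (by positivity) ?_
      rw [mul_div_assoc]
      nlinarith
    have h5 := h1 r hzK
    have h6 := pp_le_far (ν := ν) hK hνK hδ hKD hzD
    rw [hz] at h6
    have h7 := Real.log_le_log h4 h3
    rw [← Real.log_le_iff_le_exp (by positivity), Real.log_mul hrD.ne' h4.ne']
    unfold uu at h5
    linarith
  have h3 : π / 2 * c ≤ Real.exp (-I) := by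
    refine le_of_tendsto (compare_limit hD0 (by positivity : 0 < π / 2 * c)) ?_
    filter_upwards [eventually_gt_atTop D] with r hr
    exact h2 r hr
  have h4 := (Real.log_le_iff_le_exp (by positivity)).2 h3
  linarith

end global

end Pool.Agent.Helper27.Cap
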