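import Pool.Agent.Helper27_Cap.LP

/-!
# First and second derivatives of planar potentials along lines
-/

namespace Pool.Agent.Helper27.Cap

open MeasureTheory Set Real Filter Topology
open scoped ENNReal

/-- necessary second derivative test at a local minimum -/
theorem second_deriv_nonneg {w w1 : ℝ → ℝ} {w2 : ℝ} (h1 : ∀ᶠ t in 𝓝 (0 : ℝ), HasDerivAt w (w1 t) t)
    (h2 : HasDerivAt w1 w2 0) (hmin : IsLocalMin w 0) : 0 ≤ w2 := by
  by_contra hneg
  push Not at hneg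
  have hd : deriv w =ᶠ[𝓝 0] w1 := h1.mono fun t ht => ht.deriv
  have hdd : deriv (deriv w) 0 = w2 := by rw [hd.deriv_eq, h2.deriv]
  have hmax : IsLocalMax w 0 :=
    isLocalMax_of_deriv_deriv_neg (by rw [hdd]; exact hneg) hmin.deriv_eq_zero
      h1.self_of_nhds.continuousAt
  have hc : w =ᶠ[𝓝 0] fun _ => w 0 := by
    filter_upwards [hmin, hmax] with t ht ht'
    exact le_antisymm ht' ht
  have hc1 : deriv w =ᶠ[𝓝 0] fun _ => 0 := by
    refine (hc.eventually_nhds).mono fun t ht => ?_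
    rw [EventuallyEq.deriv_eq ht]
    simp
  have : deriv (deriv w) 0 = 0 := by rw [hc1.deriv_eq]; simp
  rw [hdd] at this
  linarith

/-- the component of `s` in direction `e` -/
noncomputable def comp (e s : ℂ) : ℝ := s.re * e.re + s.im * e.im

theorem comp_abs_le (e s : ℂ) (he : ‖e‖ = 1) : |comp e s| ≤ ‖s‖ := by
  have h1 : comp e s = (s * (starRingEnd ℂ) e).re := by simp [comp]
  rw [h1]
  refine (Complex.abs_re_le_norm _).trans ?_
  rw [norm_mul, Complex.norm_conj, he, mul_one]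

theorem comp_line (e s : ℂ) (he : ‖e‖ = 1) (t : ℝ) : comp e (s - t * e) = comp e s - t := by
  have h1 : e.re ^ 2 + e.im ^ 2 = 1 := by
    have := Complex.sq_norm e
    rw [he, Complex.normSq_apply] at this
    linarith
  simp [comp]
  linear_combination (-t) * h1

theorem hasDerivAt_comp (e s : ℂ) (he : ‖e‖ = 1) (t : ℝ) :
    HasDerivAt (fun t : ℝ => comp e (s - t * e)) (-1) t := by
  have : (fun t : ℝ => comp e (s - t * e)) = fun t => comp e s - t := funext fun t => comp_line e s he t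
  rw [this]
  simpa using (hasDerivAt_id t).const_sub (comp e s)

theorem norm_sq_line (e s : ℂ) (he : ‖e‖ = 1) (t : ℝ) :
    ‖s - t * e‖ ^ 2 = ‖s‖ ^ 2 - 2 * t * comp e s + t ^ 2 := by
  have h1 : e.re ^ 2 + e.im ^ 2 = 1 := by
    have := Complex.sq_norm e
    rw [he, Complex.normSq_apply] at this
    linarith
  rw [Complex.sq_norm, Complex.sq_norm, Complex.normSq_apply, Complex.normSq_apply]
  simp [comp]
  linear_combination t ^ 2 * h1

theorem hasDerivAt_normSq (e s : ℂ) (he : ‖e‖ = 1) (t : ℝ) :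
    HasDerivAt (fun t : ℝ => ‖s - t * e‖ ^ 2) (-2 * comp e (s - t * e)) t := by
  have : (fun t : ℝ => ‖s - t * e‖ ^ 2) = fun t => ‖s‖ ^ 2 - 2 * t * comp e s + t ^ 2 :=
    funext fun t => norm_sq_line e s he t
  rw [this, comp_line e s he]
  have h1 : HasDerivAt (fun t : ℝ => ‖s‖ ^ 2 - 2 * t * comp e s + t ^ 2)
      (0 - 2 * 1 * comp e s + 2 * t ^ 1 * 1) t :=
    ((hasDerivAt_const t _).sub (((hasDerivAt_id t).const_mul 2).mul_const _)).add ((hasDerivAt_id t).pow 2)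
  convert h1 using 1
  ring

/-- derivative of `1/|s - t e|` -/
theorem hasDerivAt_inv_norm (e s : ℂ) (he : ‖e‖ = 1) (t : ℝ) (hs : s - t * e ≠ 0) :
    HasDerivAt (fun t : ℝ => ‖s - t * e‖⁻¹) (comp e (s - t * e) * (‖s - t * e‖⁻¹) ^ 3) t := by
  have hn : 0 < ‖s - t * e‖ := norm_pos_iff.2 hs
  have h1 := ((hasDerivAt_normSq e s he t).sqrt (by positivity)).inv
    (by rw [Real.sqrt_sq (norm_nonneg _)]; exact hn.ne')
  simp only [Real.sqrt_sq (norm_nonneg _)] at h1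
  refine HasDerivAt.congr_deriv (f := fun t : ℝ => ‖s - t * e‖⁻¹) h1 ?_
  field_simp

theorem hasDerivAt_inv_norm2 (e s : ℂ) (he : ‖e‖ = 1) (t : ℝ) (hs : s - t * e ≠ 0) :
    HasDerivAt (fun t : ℝ => comp e (s - t * e) * (‖s - t * e‖⁻¹) ^ 3)
      (3 * comp e (s - t * e) ^ 2 * (‖s - t * e‖⁻¹) ^ 5 - (‖s - t * e‖⁻¹) ^ 3) t := by
  have h1 := (hasDerivAt_comp e s he t).mul ((hasDerivAt_inv_norm e s he t hs).pow 3)
  refine HasDerivAt.congr_deriv (f := fun t : ℝ => comp e (s - t * e) * (‖s - t * e‖⁻¹) ^ 3) h1 ?_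
  simp
  ring

section Newton

variable {σ : Measure ℂ} [IsFiniteMeasure σ] {x : ℂ} {d : ℝ}

theorem line_bound (e : ℂ) (he : ‖e‖ = 1) {y x : ℂ} {d : ℝ} (hy : d ≤ ‖y - x‖) {t : ℝ}
    (ht : t ∈ Metric.ball (0 : ℝ) (d / 2)) : d / 2 ≤ ‖(y - x) - t * e‖ := by
  have h1 : |t| < d / 2 := by simpa using ht
  have h2 : ‖(t : ℂ) * e‖ = |t| := by rw [norm_mul, he, mul_one, Complex.norm_real, Real.norm_eq_abs]
  have h3 := norm_sub_norm_le (y - x) (t * e)
  rw [h2] at h3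
  linarith

/-- The Newtonian potential along a line: first derivative. -/
theorem newton_deriv1 (e : ℂ) (he : ‖e‖ = 1) (hd : 0 < d) (hx : ∀ᵐ y ∂σ, d ≤ ‖y - x‖) {t : ℝ}
    (ht : t ∈ Metric.ball (0 : ℝ) (d / 2)) :
    HasDerivAt (fun t : ℝ => ∫ y, ‖(y - x) - t * e‖⁻¹ ∂σ)
      (∫ y, comp e ((y - x) - t * e) * (‖(y - x) - t * e‖⁻¹) ^ 3 ∂σ) t := by
  refine (hasDerivAt_integral_of_dominated_loc_of_deriv_le (μ := σ) (x₀ := t)
    (F := fun (t : ℝ) y => ‖(y - x) - t * e‖⁻¹)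
    (F' := fun (t : ℝ) y => comp e ((y - x) - t * e) * (‖(y - x) - t * e‖⁻¹) ^ 3)
    (s := Metric.ball (0 : ℝ) (d / 2))
    (bound := fun _ => (d / 2)⁻¹ ^ 2) (Metric.isOpen_ball.mem_nhds ht) ?_ ?_ ?_ ?_ ?_ ?_).2
  · exact Eventually.of_forall fun t => by fun_prop
  · refine Integrable.of_bound (by fun_prop) ((d / 2)⁻¹) ?_
    filter_upwards [hx] with y hy
    rw [Real.norm_of_nonneg (by positivity)]
    exact inv_anti₀ (by positivity) (line_bound e he hy ht)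
  · have : Measurable (comp e) := by unfold comp; fun_prop
    exact ((this.comp (by fun_prop)).mul (by fun_prop)).aestronglyMeasurable
  · filter_upwards [hx] with y hy t ht
    have h1 := line_bound e he hy ht
    have h2 : 0 < ‖(y - x) - t * e‖ := by linarith
    rw [Real.norm_eq_abs, abs_mul, abs_of_nonneg (by positivity : 0 ≤ (‖(y - x) - t * e‖⁻¹) ^ 3)]
    calc |comp e ((y - x) - t * e)| * (‖(y - x) - t * e‖⁻¹) ^ 3
        ≤ ‖(y - x) - t * e‖ * (‖(y - x) - t * e‖⁻¹) ^ 3 := by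
          gcongr
          exact comp_abs_le e _ he
      _ = (‖(y - x) - t * e‖⁻¹) ^ 2 := by field_simp
      _ ≤ _ := by
          have := inv_anti₀ (by positivity) h1
          gcongr
  · exact integrable_const _
  · filter_upwards [hx] with y hy t ht
    have h1 := line_bound e he hy ht
    exact hasDerivAt_inv_norm e _ he t (norm_pos_iff.1 (by linarith))

/-- The Newtonian potential along a line: second derivative. -/
theorem newton_deriv2 (e : ℂ) (he : ‖e‖ = 1) (hd : 0 < d) (hx : ∀ᵐ y ∂σ, d ≤ ‖y - x‖) :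
    HasDerivAt (fun t : ℝ => ∫ y, comp e ((y - x) - t * e) * (‖(y - x) - t * e‖⁻¹) ^ 3 ∂σ)
      (∫ y, (3 * comp e (y - x) ^ 2 * (‖y - x‖⁻¹) ^ 5 - (‖y - x‖⁻¹) ^ 3) ∂σ) 0 := by
  have hcm : Measurable (comp e) := by unfold comp; fun_prop
  have ht : (0 : ℝ) ∈ Metric.ball (0 : ℝ) (d / 2) := by simpa using hd
  have key := (hasDerivAt_integral_of_dominated_loc_of_deriv_le (μ := σ) (x₀ := (0 : ℝ))
    (F := fun (t : ℝ) y => comp e ((y - x) - t * e) * (‖(y - x) - t * e‖⁻¹) ^ 3)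
    (F' := fun (t : ℝ) y => 3 * comp e ((y - x) - t * e) ^ 2 * (‖(y - x) - t * e‖⁻¹) ^ 5 -
      (‖(y - x) - t * e‖⁻¹) ^ 3)
    (s := Metric.ball (0 : ℝ) (d / 2))
    (bound := fun _ => 4 * (d / 2)⁻¹ ^ 3) (Metric.isOpen_ball.mem_nhds ht) ?_ ?_ ?_ ?_ ?_ ?_).2
  · simpa using key
  · exact Eventually.of_forall fun t => ((hcm.comp (by fun_prop)).mul (by fun_prop)).aestronglyMeasurable
  · refine Integrable.of_bound ((hcm.comp (by fun_prop)).mul (by fun_prop)).aestronglyMeasurable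
      ((d / 2)⁻¹ ^ 2) ?_
    filter_upwards [hx] with y hy
    have h1 := line_bound e he hy ht
    have h2 : 0 < ‖(y - x) - (0 : ℝ) * e‖ := by linarith
    rw [Real.norm_eq_abs, abs_mul, abs_of_nonneg (by positivity : 0 ≤ (‖(y - x) - (0 : ℝ) * e‖⁻¹) ^ 3)]
    calc |comp e ((y - x) - (0 : ℝ) * e)| * (‖(y - x) - (0 : ℝ) * e‖⁻¹) ^ 3
        ≤ ‖(y - x) - (0 : ℝ) * e‖ * (‖(y - x) - (0 : ℝ) * e‖⁻¹) ^ 3 := by
          gcongr
          exact comp_abs_le e _ he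
      _ = (‖(y - x) - (0 : ℝ) * e‖⁻¹) ^ 2 := by field_simp
      _ ≤ _ := by
          have := inv_anti₀ (by positivity) h1
          gcongr
  · exact (((hcm.comp (by fun_prop)).pow_const 2 |>.const_mul 3 |>.mul (by fun_prop)).sub
      (by fun_prop)).aestronglyMeasurable
  · filter_upwards [hx] with y hy t ht
    have h1 := line_bound e he hy ht
    have h2 : 0 < ‖(y - x) - t * e‖ := by linarith
    have h3 := comp_abs_le e ((y - x) - t * e) he
    have h4 : comp e ((y - x) - t * e) ^ 2 ≤ ‖(y - x) - t * e‖ ^ 2 := by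
      rw [← sq_abs]; gcongr
    have h5 : (‖(y - x) - t * e‖⁻¹) ^ 3 ≤ (d / 2)⁻¹ ^ 3 := by
      have := inv_anti₀ (by positivity) h1
      gcongr
    have h6 : 3 * comp e ((y - x) - t * e) ^ 2 * (‖(y - x) - t * e‖⁻¹) ^ 5 ≤ 3 * (‖(y - x) - t * e‖⁻¹) ^ 3 := by
      calc 3 * comp e ((y - x) - t * e) ^ 2 * (‖(y - x) - t * e‖⁻¹) ^ 5
          ≤ 3 * ‖(y - x) - t * e‖ ^ 2 * (‖(y - x) - t * e‖⁻¹) ^ 5 := by gcongr
        _ = _ := by field_simp
    have h7 : 0 ≤ 3 * comp e ((y - x) - t * e) ^ 2 * (‖(y - x) - t * e‖⁻¹) ^ 5 := by positivity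
    have h8 : 0 ≤ (‖(y - x) - t * e‖⁻¹) ^ 3 := by positivity
    rw [Real.norm_eq_abs, abs_le]
    constructor <;> nlinarith
  · exact integrable_const _
  · filter_upwards [hx] with y hy t ht
    have h1 := line_bound e he hy ht
    exact hasDerivAt_inv_norm2 e _ he t (norm_pos_iff.1 (by linarith))

/-- the Laplacian of the Newtonian potential in the plane -/
theorem newton_laplace (hd : 0 < d) (hx : ∀ᵐ y ∂σ, d ≤ ‖y - x‖) :
    (∫ y, (3 * comp 1 (y - x) ^ 2 * (‖y - x‖⁻¹) ^ 5 - (‖y - x‖⁻¹) ^ 3) ∂σ) +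
      (∫ y, (3 * comp Complex.I (y - x) ^ 2 * (‖y - x‖⁻¹) ^ 5 - (‖y - x‖⁻¹) ^ 3) ∂σ) =
      ∫ y, (‖y - x‖⁻¹) ^ 3 ∂σ := by
  have hint : ∀ e : ℂ, ‖e‖ = 1 →
      Integrable (fun y => 3 * comp e (y - x) ^ 2 * (‖y - x‖⁻¹) ^ 5 - (‖y - x‖⁻¹) ^ 3) σ := by
    intro e he
    have hcm : Measurable (comp e) := by unfold comp; fun_prop
    refine Integrable.sub ?_ (int_pow hd hx 3)
    refine Integrable.of_bound ((hcm.comp (by fun_prop)).pow_const 2 |>.const_mul 3 |>.mul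
      (by fun_prop)).aestronglyMeasurable (3 * (d⁻¹) ^ 3) ?_
    filter_upwards [hx] with y hy
    have h2 : 0 < ‖y - x‖ := by linarith
    have h3 := comp_abs_le e (y - x) he
    have h4 : comp e (y - x) ^ 2 ≤ ‖y - x‖ ^ 2 := by
      rw [← sq_abs]; gcongr
    rw [Real.norm_of_nonneg (by positivity)]
    calc 3 * comp e (y - x) ^ 2 * (‖y - x‖⁻¹) ^ 5
          ≤ 3 * ‖y - x‖ ^ 2 * (‖y - x‖⁻¹) ^ 5 := by gcongr
        _ = 3 * (‖y - x‖⁻¹) ^ 3 := by field_simp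
        _ ≤ _ := by
          have := inv_anti₀ hd hy
          gcongr
  rw [← integral_add (hint 1 (by simp)) (hint Complex.I (by simp))]
  refine integral_congr_ae ?_
  filter_upwards [hx] with y hy
  have h2 : 0 < ‖y - x‖ := by linarith
  have h3 : comp 1 (y - x) ^ 2 + comp Complex.I (y - x) ^ 2 = ‖y - x‖ ^ 2 := by
    rw [Complex.sq_norm, Complex.normSq_apply]
    simp [comp]
    ring
  have h4 : 3 * ‖y - x‖ ^ 2 * (‖y - x‖⁻¹) ^ 5 = 3 * (‖y - x‖⁻¹) ^ 3 := by field_simp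
  have h5 : 3 * (comp 1 (y - x) ^ 2 + comp Complex.I (y - x) ^ 2) * (‖y - x‖⁻¹) ^ 5 = 3 * (‖y - x‖⁻¹) ^ 3 := by
    rw [h3, h4]
  linarith

end Newton

end Pool.Agent.Helper27.Cap
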