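import Mathlib

/-!
# Energies of probability measures on a compact set: existence of minimizers
-/

namespace Pool.Agent.Helper27.Cap

open MeasureTheory Set Filter Topology
open scoped ENNReal NNReal BoundedContinuousFunction

set_option linter.unusedSectionVars false

section Compact

variable {X : Type*} [MetricSpace X] [CompactSpace X] [MeasurableSpace X] [BorelSpace X]

theorem continuous_energy_real (k : X × X → ℝ) (hk : Continuous k) :
    Continuous fun μ : ProbabilityMeasure X => ∫ x, ∫ y, k (x, y) ∂(μ : Measure X) ∂(μ : Measure X) := by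
  have h1 : Continuous fun μ : ProbabilityMeasure X => ∫ p, k p ∂((μ.prod μ : ProbabilityMeasure (X × X)) : Measure (X × X)) :=
    (ProbabilityMeasure.continuous_integral_boundedContinuousFunction
      (BoundedContinuousFunction.mkOfCompact ⟨k, hk⟩)).comp
      (ProbabilityMeasure.continuous_prod.comp (continuous_id.prodMk continuous_id))
  refine h1.congr fun μ => ?_
  rw [ProbabilityMeasure.toMeasure_prod, integral_prod]
  exact hk.integrable_of_hasCompactSupport (HasCompactSupport.of_compactSpace k)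

theorem continuous_energy_nnreal (k : X × X → ℝ≥0) (hk : Continuous k) :
    Continuous fun μ : ProbabilityMeasure X =>
      ∫⁻ x, ∫⁻ y, k (x, y) ∂(μ : Measure X) ∂(μ : Measure X) := by
  have h1 : Continuous fun μ : ProbabilityMeasure X => ∫⁻ p, k p ∂((μ.prod μ : ProbabilityMeasure (X × X)) : Measure (X × X)) :=
    (ProbabilityMeasure.continuous_lintegral_boundedContinuousFunction
      (BoundedContinuousFunction.mkOfCompact ⟨k, hk⟩)).comp
      (ProbabilityMeasure.continuous_prod.comp (continuous_id.prodMk continuous_id))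
  refine h1.congr fun μ => ?_
  rw [ProbabilityMeasure.toMeasure_prod, lintegral_prod _ (by fun_prop)]

theorem lsc_energy (G : X × X → ℝ≥0∞) (k : ℕ → X × X → ℝ≥0) (hk : ∀ n, Continuous (k n))
    (hmono : Monotone k) (hG : ∀ p, G p = ⨆ n, (k n p : ℝ≥0∞)) :
    LowerSemicontinuous fun μ : ProbabilityMeasure X =>
      ∫⁻ x, ∫⁻ y, G (x, y) ∂(μ : Measure X) ∂(μ : Measure X) := by
  have h1 : (fun μ : ProbabilityMeasure X =>
      ∫⁻ x, ∫⁻ y, G (x, y) ∂(μ : Measure X) ∂(μ : Measure X)) =
      fun μ : ProbabilityMeasure X => ⨆ n, ∫⁻ x, ∫⁻ y, k n (x, y) ∂(μ : Measure X) ∂(μ : Measure X) := by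
    funext μ
    simp_rw [hG]
    have h2 : ∀ x, ∫⁻ y, ⨆ n, (k n (x, y) : ℝ≥0∞) ∂(μ : Measure X) =
        ⨆ n, ∫⁻ y, (k n (x, y) : ℝ≥0∞) ∂(μ : Measure X) := by
      intro x
      refine lintegral_iSup (fun n => ?_) fun m n hmn y => ?_
      · have := hk n
        fun_prop
      · exact ENNReal.coe_le_coe.2 (hmono hmn _)
    simp_rw [h2]
    refine lintegral_iSup (fun n => ?_) fun m n hmn x => ?_
    · have h3 : Measurable fun p : X × X => (k n p : ℝ≥0∞) := by
        have := hk n
        fun_prop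
      exact h3.lintegral_prod_right'
    · exact lintegral_mono fun y => ENNReal.coe_le_coe.2 (hmono hmn _)
  rw [h1]
  exact lowerSemicontinuous_iSup fun n => (continuous_energy_nnreal _ (hk n)).lowerSemicontinuous

end Compact

section Sets

variable {Y : Type*} [MetricSpace Y] [MeasurableSpace Y] [BorelSpace Y]

/-- push-forward of a measure on the subtype -/
noncomputable def push {K : Set Y} (ν : ProbabilityMeasure K) : Measure Y :=
  Measure.map Subtype.val (ν : Measure K)

instance {K : Set Y} (ν : ProbabilityMeasure K) : IsProbabilityMeasure (push ν) :=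
  Measure.isProbabilityMeasure_map measurable_subtype_coe.aemeasurable

theorem push_compl {K : Set Y} (hK : MeasurableSet K) (ν : ProbabilityMeasure K) : push ν Kᶜ = 0 := by
  rw [push, Measure.map_apply measurable_subtype_coe hK.compl]
  simp

theorem exists_push {K : Set Y} (hK : MeasurableSet K) (μ : Measure Y) (h1 : IsProbabilityMeasure μ)
    (h2 : μ Kᶜ = 0) : ∃ ν : ProbabilityMeasure K, push ν = μ := by
  have h3 : Measure.map Subtype.val (Measure.comap (Subtype.val : K → Y) μ) = μ := by
    rw [(MeasurableEmbedding.subtype_coe hK).map_comap, Subtype.range_coe]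
    exact Measure.restrict_eq_self_of_ae_mem (by rw [ae_iff]; exact h2)
  refine ⟨⟨Measure.comap (Subtype.val : K → Y) μ, ⟨?_⟩⟩, h3⟩
  have h4 : Measure.map Subtype.val (Measure.comap (Subtype.val : K → Y) μ) univ = 1 := by
    rw [h3]; exact h1.measure_univ
  rwa [Measure.map_apply measurable_subtype_coe MeasurableSet.univ, preimage_univ] at h4

theorem lintegral_push {K : Set Y} (hK : MeasurableSet K) (ν : ProbabilityMeasure K) (f : Y → ℝ≥0∞) :
    ∫⁻ x, f x ∂(push ν) = ∫⁻ x : K, f x ∂(ν : Measure K) :=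
  (MeasurableEmbedding.subtype_coe hK).lintegral_map _

theorem integral_push {K : Set Y} (hK : MeasurableSet K) (ν : ProbabilityMeasure K) (f : Y → ℝ) :
    ∫ x, f x ∂(push ν) = ∫ x : K, f x ∂(ν : Measure K) :=
  (MeasurableEmbedding.subtype_coe hK).integral_map _

theorem nonempty_prob {K : Set Y} (hne : K.Nonempty) : Nonempty (ProbabilityMeasure K) := by
  obtain ⟨x, hx⟩ := hne
  exact ⟨⟨Measure.dirac ⟨x, hx⟩, inferInstance⟩⟩

/-- existence of an energy minimizer for a continuous kernel -/
theorem exists_min_real {K : Set Y} (hK : IsCompact K) (hne : K.Nonempty) (k : Y × Y → ℝ)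
    (hk : Continuous k) :
    ∃ μ : Measure Y, IsProbabilityMeasure μ ∧ μ Kᶜ = 0 ∧ ∀ μ' : Measure Y, IsProbabilityMeasure μ' →
      μ' Kᶜ = 0 → (∫ x, ∫ y, k (x, y) ∂μ ∂μ) ≤ ∫ x, ∫ y, k (x, y) ∂μ' ∂μ' := by
  have : CompactSpace K := isCompact_iff_compactSpace.1 hK
  have := nonempty_prob hne
  have hcont : Continuous fun μ : ProbabilityMeasure K =>
      ∫ x, ∫ y, k (x, y) ∂(push μ) ∂(push μ) := by
    simp_rw [integral_push hK.measurableSet]
    exact continuous_energy_real (fun p : K × K => k (p.1, p.2)) (by fun_prop)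
  obtain ⟨ν, -, hν⟩ := isCompact_univ.exists_isMinOn univ_nonempty hcont.continuousOn
  refine ⟨push ν, inferInstance, push_compl hK.measurableSet ν, fun μ' h1 h2 => ?_⟩
  obtain ⟨ν', rfl⟩ := exists_push hK.measurableSet μ' h1 h2
  exact hν (mem_univ ν')

/-- existence of an energy minimizer for an increasing limit of continuous nonnegative kernels -/
theorem exists_min_lsc {K : Set Y} (hK : IsCompact K) (hne : K.Nonempty) (G : Y × Y → ℝ≥0∞)
    (k : ℕ → Y × Y → ℝ≥0) (hk : ∀ n, Continuous (k n))
    (hmono : Monotone k) (hG : ∀ p, G p = ⨆ n, (k n p : ℝ≥0∞)) :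
    ∃ μ : Measure Y, IsProbabilityMeasure μ ∧ μ Kᶜ = 0 ∧ ∀ μ' : Measure Y, IsProbabilityMeasure μ' →
      μ' Kᶜ = 0 → (∫⁻ x, ∫⁻ y, G (x, y) ∂μ ∂μ) ≤ ∫⁻ x, ∫⁻ y, G (x, y) ∂μ' ∂μ' := by
  have : CompactSpace K := isCompact_iff_compactSpace.1 hK
  have := nonempty_prob hne
  have hcont : LowerSemicontinuous fun μ : ProbabilityMeasure K =>
      ∫⁻ x, ∫⁻ y, G (x, y) ∂(push μ) ∂(push μ) := by
    simp_rw [lintegral_push hK.measurableSet]
    refine lsc_energy (fun p : K × K => G (p.1, p.2)) (fun n p => k n (p.1, p.2)) (fun n => ?_) ?_ ?_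
    · have := hk n
      fun_prop
    · intro m n hmn p
      exact hmono hmn _
    · intro p
      exact hG _
  obtain ⟨ν, -, hν⟩ := (lowerSemicontinuousOn_univ_iff.2 hcont).exists_isMinOn univ_nonempty isCompact_univ
  refine ⟨push ν, inferInstance, push_compl hK.measurableSet ν, fun μ' h1 h2 => ?_⟩
  obtain ⟨ν', rfl⟩ := exists_push hK.measurableSet μ' h1 h2
  exact hν (mem_univ ν')

/-- a common measure of low energy for an increasing sequence of continuous kernels -/
theorem exists_common {K : Set Y} (hK : IsCompact K) (k : ℕ → Y × Y → ℝ)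
    (hk : ∀ n, Continuous (k n)) (hmono : Monotone k) (γ : ℝ)
    (h : ∀ n, ∃ μ : Measure Y, IsProbabilityMeasure μ ∧ μ Kᶜ = 0 ∧ (∫ x, ∫ y, k n (x, y) ∂μ ∂μ) ≤ γ) :
    ∃ μ : Measure Y, IsProbabilityMeasure μ ∧ μ Kᶜ = 0 ∧ ∀ n, (∫ x, ∫ y, k n (x, y) ∂μ ∂μ) ≤ γ := by
  have : CompactSpace K := isCompact_iff_compactSpace.1 hK
  have hcont : ∀ n, Continuous fun μ : ProbabilityMeasure K =>
      ∫ x, ∫ y, k n (x, y) ∂(push μ) ∂(push μ) := by
    intro n
    simp_rw [integral_push hK.measurableSet]
    exact continuous_energy_real (fun p : K × K => k n (p.1, p.2)) (by have := hk n; fun_prop)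
  set S : ℕ → Set (ProbabilityMeasure K) := fun n =>
    {μ | (∫ x, ∫ y, k n (x, y) ∂(push μ) ∂(push μ)) ≤ γ} with hS
  have hcl : ∀ n, IsClosed (S n) := fun n => isClosed_le (hcont n) continuous_const
  have hne : ∀ n, (S n).Nonempty := by
    intro n
    obtain ⟨μ, h1, h2, h3⟩ := h n
    obtain ⟨ν, rfl⟩ := exists_push hK.measurableSet μ h1 h2
    exact ⟨ν, h3⟩
  have hanti : ∀ n, S (n + 1) ⊆ S n := by
    intro n ν hν
    refine le_trans ?_ (show (∫ x, ∫ y, k (n + 1) (x, y) ∂(push ν) ∂(push ν)) ≤ γ from hν)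
    simp_rw [integral_push hK.measurableSet]
    have hint : ∀ m, Integrable (fun p : K × K => k m (p.1, p.2)) ((ν : Measure K).prod ν) := by
      intro m
      have hc : Continuous (fun p : K × K => k m (p.1, p.2)) := by have := hk m; fun_prop
      exact hc.integrable_of_hasCompactSupport (HasCompactSupport.of_compactSpace _)
    rw [← integral_prod (fun p : K × K => k n (p.1, p.2)) (hint n),
      ← integral_prod (fun p : K × K => k (n + 1) (p.1, p.2)) (hint (n + 1))]
    exact integral_mono (hint n) (hint (n + 1)) fun p => hmono (Nat.le_succ n) _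
  obtain ⟨ν, hν⟩ := IsCompact.nonempty_iInter_of_sequence_nonempty_isCompact_isClosed S hanti hne
    (hcl 0).isCompact hcl
  rw [mem_iInter] at hν
  exact ⟨push ν, inferInstance, push_compl hK.measurableSet ν, hν⟩

end Sets

end Pool.Agent.Helper27.Cap
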