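import Mathlib

/-!
# First order condition for energy minimizers
-/

namespace Pool.Agent.Helper27.Cap

open MeasureTheory Set Filter Topology
open scoped ENNReal NNReal

variable {Y : Type*} [MeasurableSpace Y]

/-- energy of a sum of two measures -/
theorem energy_add (G : Y → Y → ℝ≥0∞) (hG : Measurable (Function.uncurry G)) (hsymm : ∀ x y, G x y = G y x)
    (μ ν : Measure Y) [IsFiniteMeasure μ] [IsFiniteMeasure ν] :
    (∫⁻ x, (∫⁻ y, G x y ∂(μ + ν)) ∂(μ + ν)) =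
      (∫⁻ x, (∫⁻ y, G x y ∂μ) ∂μ) + 2 * (∫⁻ x, (∫⁻ y, G x y ∂μ) ∂ν) + ∫⁻ x, (∫⁻ y, G x y ∂ν) ∂ν := by
  have h1 : (∫⁻ x, (∫⁻ y, G x y ∂ν) ∂μ) = ∫⁻ x, (∫⁻ y, G x y ∂μ) ∂ν := by
    rw [lintegral_lintegral_swap hG.aemeasurable]
    exact lintegral_congr fun x => lintegral_congr fun y => hsymm _ _
  have hm : ∀ ρ : Measure Y, IsFiniteMeasure ρ → Measurable fun x => ∫⁻ y, G x y ∂ρ :=
    fun ρ _ => hG.lintegral_prod_right'
  simp_rw [lintegral_add_measure]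
  rw [lintegral_add_left (hm μ inferInstance), lintegral_add_left (hm μ inferInstance), h1]
  ring

/-- first order condition: lower bound for the integral of the potential over any measurable set. -/
theorem first_order (G : Y → Y → ℝ≥0∞) (hG : Measurable (Function.uncurry G))
    (hsymm : ∀ x y, G x y = G y x) (μ : Measure Y) [IsProbabilityMeasure μ]
    (hfin : (∫⁻ x, (∫⁻ y, G x y ∂μ) ∂μ) ≠ ⊤)
    (hmin : ∀ μ' : Measure Y, IsProbabilityMeasure μ' → μ' ≪ μ →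
      (∫⁻ x, (∫⁻ y, G x y ∂μ) ∂μ) ≤ ∫⁻ x, (∫⁻ y, G x y ∂μ') ∂μ')
    (E : Set Y) (hE : MeasurableSet E) :
    (∫⁻ x, (∫⁻ y, G x y ∂μ) ∂μ) * μ E ≤ ∫⁻ x in E, (∫⁻ y, G x y ∂μ) ∂μ := by
  set V : ℝ≥0∞ := ∫⁻ x, (∫⁻ y, G x y ∂μ) ∂μ with hV
  set A : ℝ≥0∞ := ∫⁻ x in E, (∫⁻ y, G x y ∂μ) ∂μ with hA
  have hAV : A ≤ V := setLIntegral_le_lintegral _ _
  set B : ℝ≥0∞ := ∫⁻ x in E, (∫⁻ y in E, G x y ∂μ) ∂μ with hB
  have hBA : B ≤ A := lintegral_mono fun x => setLIntegral_le_lintegral _ _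
  have hAfin : A ≠ ⊤ := ne_top_of_le_ne_top hfin hAV
  have hBfin : B ≠ ⊤ := ne_top_of_le_ne_top hAfin hBA
  have hmfin : μ E ≠ ⊤ := measure_ne_top _ _
  -- the variation
  have key : ∀ t : ℝ≥0, V * (1 + t * μ E) ^ 2 ≤ V + 2 * (t * A) + t ^ 2 * B := by
    intro t
    set c : ℝ≥0∞ := 1 + t * μ E with hc
    have hc0 : c ≠ 0 := by simp [hc]
    have hcT : c ≠ ⊤ := by
      rw [hc]
      exact ENNReal.add_ne_top.2 ⟨by simp, ENNReal.mul_ne_top ENNReal.coe_ne_top hmfin⟩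
    set ρ : Measure Y := μ + (t : ℝ≥0∞) • μ.restrict E with hρ
    have hρu : ρ univ = c := by
      simp [hρ, hc]
    have hρE : (∫⁻ x, (∫⁻ y, G x y ∂ρ) ∂ρ) = V + 2 * (t * A) + t ^ 2 * B := by
      have hf : IsFiniteMeasure ((t : ℝ≥0∞) • μ.restrict E) :=
        ⟨by
          rw [Measure.smul_apply, Measure.restrict_apply_univ, smul_eq_mul]
          exact ENNReal.mul_lt_top ENNReal.coe_lt_top hmfin.lt_top⟩
      rw [hρ, energy_add G hG hsymm]
      simp only [lintegral_smul_measure, smul_eq_mul]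
      rw [lintegral_const_mul' _ _ ENNReal.coe_ne_top]
      ring
    have hprob : IsProbabilityMeasure (c⁻¹ • ρ) := by
      constructor
      rw [Measure.smul_apply, hρu, smul_eq_mul, ENNReal.inv_mul_cancel hc0 hcT]
    have hac : c⁻¹ • ρ ≪ μ := by
      intro s hs
      have h1 : μ.restrict E s = 0 := Measure.absolutelyContinuous_of_le Measure.restrict_le_self hs
      simp [hρ, hs, h1]
    have h2 := hmin _ hprob hac
    simp only [lintegral_smul_measure, smul_eq_mul] at h2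
    rw [lintegral_const_mul' _ _ (ENNReal.inv_ne_top.2 hc0), hρE] at h2
    calc V * c ^ 2 ≤ (c⁻¹ * (c⁻¹ * (V + 2 * (t * A) + t ^ 2 * B))) * c ^ 2 := by gcongr
      _ = (c⁻¹ * c) * (c⁻¹ * c) * (V + 2 * (t * A) + t ^ 2 * B) := by ring
      _ = _ := by rw [ENNReal.inv_mul_cancel hc0 hcT, one_mul, one_mul]
  -- reals
  have keyR : ∀ t : ℝ, 0 < t → V.toReal * (1 + t * (μ E).toReal) ^ 2 ≤
      V.toReal + 2 * (t * A.toReal) + t ^ 2 * B.toReal := by
    intro t ht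
    lift t to ℝ≥0 using ht.le
    have h := key t
    have h3 : V + 2 * ((t : ℝ≥0∞) * A) + (t : ℝ≥0∞) ^ 2 * B ≠ ⊤ := by
      simp only [ne_eq, ENNReal.add_eq_top, not_or]
      refine ⟨⟨hfin, ?_⟩, ?_⟩
      · exact ENNReal.mul_ne_top (by simp) (ENNReal.mul_ne_top ENNReal.coe_ne_top hAfin)
      · exact ENNReal.mul_ne_top (by simp) hBfin
    have h4 := ENNReal.toReal_mono h3 h
    rw [ENNReal.toReal_mul, ENNReal.toReal_pow, ENNReal.toReal_add (by simp)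
      (ENNReal.mul_ne_top ENNReal.coe_ne_top hmfin), ENNReal.toReal_add, ENNReal.toReal_add hfin] at h4
    · simpa using h4
    · exact ENNReal.mul_ne_top (by simp) (ENNReal.mul_ne_top ENNReal.coe_ne_top hAfin)
    · exact ENNReal.add_ne_top.2 ⟨hfin, ENNReal.mul_ne_top (by simp)
        (ENNReal.mul_ne_top ENNReal.coe_ne_top hAfin)⟩
    · exact ENNReal.mul_ne_top (by simp) hBfin
  rw [← ENNReal.toReal_le_toReal (ENNReal.mul_ne_top hfin hmfin) hAfin, ENNReal.toReal_mul]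
  set v := V.toReal
  set m := (μ E).toReal
  set a := A.toReal
  set b := B.toReal
  have hv : 0 ≤ v := ENNReal.toReal_nonneg
  have hb : 0 ≤ b := ENNReal.toReal_nonneg
  refine le_of_forall_pos_le_add fun ε hε => ?_
  have hb1 : 0 < b + 1 := by linarith
  have ht : 0 < 2 * ε / (b + 1) := by positivity
  have h := keyR _ ht
  set t := 2 * ε / (b + 1) with htd
  have h5 : 2 * t * (v * m - a) ≤ t ^ 2 * b := by nlinarith [mul_nonneg hv (sq_nonneg (t * m))]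
  have h6 : 2 * (v * m - a) ≤ t * b := by
    have : t * (2 * (v * m - a)) ≤ t * (t * b) := by nlinarith
    exact le_of_mul_le_mul_left this ht
  have h7 : t * b ≤ 2 * ε := by
    rw [htd, div_mul_eq_mul_div, div_le_iff₀ hb1]
    nlinarith
  linarith

/-- the potential of an energy minimizer is almost everywhere constant -/
theorem potential_ae_eq (G : Y → Y → ℝ≥0∞) (hG : Measurable (Function.uncurry G))
    (hsymm : ∀ x y, G x y = G y x) (μ : Measure Y) [IsProbabilityMeasure μ]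
    (hfin : (∫⁻ x, (∫⁻ y, G x y ∂μ) ∂μ) ≠ ⊤)
    (hmin : ∀ μ' : Measure Y, IsProbabilityMeasure μ' → μ' ≪ μ →
      (∫⁻ x, (∫⁻ y, G x y ∂μ) ∂μ) ≤ ∫⁻ x, (∫⁻ y, G x y ∂μ') ∂μ') :
    ∀ᵐ x ∂μ, ∫⁻ y, G x y ∂μ = ∫⁻ x, (∫⁻ y, G x y ∂μ) ∂μ := by
  have hm : Measurable fun x => ∫⁻ y, G x y ∂μ := hG.lintegral_prod_right'
  have h1 : (fun _ => ∫⁻ x, (∫⁻ y, G x y ∂μ) ∂μ) ≤ᵐ[μ] fun x => ∫⁻ y, G x y ∂μ := by
    refine ae_le_of_forall_setLIntegral_le_of_sigmaFinite measurable_const fun s hs _ => ?_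
    rw [setLIntegral_const]
    exact first_order G hG hsymm μ hfin hmin s hs
  have h2 := ae_eq_of_ae_le_of_lintegral_le h1 (by simpa using hfin) hm.aemeasurable (by simp)
  filter_upwards [h2] with x hx
  exact hx.symm

end Pool.Agent.Helper27.Cap
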