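import Mathlib

/-!
# Potentials of radial densities in the plane by integrating over lines
-/

namespace Pool.Agent.Helper27.Cap

open MeasureTheory Set Real
open scoped ENNReal

/-- Invariance of the plane integral under rotations. -/
theorem lintegral_rot (u : Circle) (f : ℂ → ℝ≥0∞) :
    ∫⁻ ζ : ℂ, f (u * ζ) = ∫⁻ ζ : ℂ, f ζ := by
  have h := (rotation u).measurePreserving.lintegral_comp_emb
    (rotation u).toHomeomorph.measurableEmbedding f
  simpa [rotation_apply] using h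

/-- polar coordinates as an iterated integral. -/
theorem lintegral_polar (f : ℂ → ℝ≥0∞) (hf : Measurable f) :
    ∫⁻ ζ : ℂ, f ζ = ∫⁻ α in Ioo (-π) π, ∫⁻ t in Ioi (0 : ℝ),
      ENNReal.ofReal t * f (t * (Real.cos α + Real.sin α * Complex.I)) := by
  rw [← Complex.lintegral_comp_polarCoord_symm, polarCoord_target, Measure.volume_eq_prod,
    ← Measure.prod_restrict, lintegral_prod_symm]
  · simp
  · apply Measurable.aemeasurable
    have : Measurable fun p : ℝ × ℝ => (p.1 * (Real.cos p.2 + Real.sin p.2 * Complex.I) : ℂ) := by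
      fun_prop
    simp only [Complex.polarCoord_symm_apply, smul_eq_mul]
    exact (ENNReal.measurable_ofReal.comp measurable_fst).mul (hf.comp this)

theorem norm_sq_aux (t r α : ℝ) :
    ‖(t * (Real.cos α + Real.sin α * Complex.I) - r : ℂ)‖ ^ 2 = t ^ 2 - 2 * t * r * Real.cos α + r ^ 2 := by
  have h : (t * (Real.cos α + Real.sin α * Complex.I) - r : ℂ) =
      ((t * Real.cos α - r : ℝ) : ℂ) + ((t * Real.sin α : ℝ) : ℂ) * Complex.I := by
    push_cast
    ring
  rw [h, Complex.sq_norm, Complex.normSq_add_mul_I]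
  have := Real.sin_sq_add_cos_sq α
  linear_combination t ^ 2 * this

theorem enorm_aux (t α : ℝ) (ht : 0 < t) :
    ‖(t * (Real.cos α + Real.sin α * Complex.I) : ℂ)‖ₑ = ENNReal.ofReal t := by
  rw [enorm_mul, ← ofReal_norm, ← ofReal_norm, Complex.ofReal_cos, Complex.ofReal_sin,
    Complex.norm_cos_add_sin_mul_I]
  simp [abs_of_pos ht]

/-- A line through the origin: an integral over the plane of `Φ (ρ² - |ζ - b|²) / |ζ|` is an integral over
directions of integrals over lines. -/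
theorem polar_gen (Φ : ℝ → ℝ≥0∞) (hΦ : Measurable Φ) (c : ℝ) (b : ℂ) :
    ∫⁻ ζ : ℂ, Φ (c - ‖ζ - b‖ ^ 2) * (‖ζ‖ₑ)⁻¹ =
      ∫⁻ α in Ioo 0 π, ∫⁻ t : ℝ, Φ (c - ‖b‖ ^ 2 * Real.sin α ^ 2 - t ^ 2) := by
  set r : ℝ := ‖b‖ with hr
  -- rotation
  obtain ⟨u, hu⟩ : ∃ u : Circle, b = u * (r : ℂ) := by
    refine ⟨Circle.exp (Complex.arg b), ?_⟩
    rw [Circle.coe_exp, mul_comm]
    exact (Complex.norm_mul_exp_arg_mul_I b).symm
  have h1 : ∫⁻ ζ : ℂ, Φ (c - ‖ζ - b‖ ^ 2) * (‖ζ‖ₑ)⁻¹ =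
      ∫⁻ ζ : ℂ, Φ (c - ‖ζ - r‖ ^ 2) * (‖ζ‖ₑ)⁻¹ := by
    rw [← lintegral_rot u]
    refine lintegral_congr fun ζ => ?_
    rw [hu, ← mul_sub, norm_mul, enorm_mul]
    have h2 : ‖(u : ℂ)‖ₑ = 1 := by
      rw [← ofReal_norm, Circle.norm_coe]; simp
    rw [Circle.norm_coe, one_mul, h2, one_mul]
  rw [h1, lintegral_polar]
  swap
  · refine Measurable.mul (hΦ.comp ?_) ?_
    · fun_prop
    · fun_prop
  set g : ℝ → ℝ → ℝ≥0∞ := fun α t => Φ (c - r ^ 2 * Real.sin α ^ 2 - (t - r * Real.cos α) ^ 2) with hg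
  have hgm : Measurable (Function.uncurry g) := by
    refine hΦ.comp ?_
    fun_prop
  set F : ℝ → ℝ≥0∞ := fun α => ∫⁻ t in Ioi (0 : ℝ), g α t with hF
  have hFm : Measurable F := hgm.lintegral_prod_right'
  have h2 : ∀ α : ℝ, ∫⁻ t in Ioi (0 : ℝ),
      ENNReal.ofReal t * (Φ (c - ‖(t * (Real.cos α + Real.sin α * Complex.I) - r : ℂ)‖ ^ 2) *
        (‖(t * (Real.cos α + Real.sin α * Complex.I) : ℂ)‖ₑ)⁻¹) = F α := by
    intro α
    refine setLIntegral_congr_fun measurableSet_Ioi fun t ht => ?_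
    have ht : 0 < t := ht
    rw [enorm_aux _ _ ht, norm_sq_aux, mul_comm (Φ _), ← mul_assoc,
      ENNReal.mul_inv_cancel (by simpa using ht) (by simp), one_mul]
    simp only [hg]
    congr 1
    have := Real.sin_sq_add_cos_sq α
    linear_combination r ^ 2 * this
  simp_rw [h2]
  -- symmetries
  have hneg : ∀ α, F (-α) = F α := by
    intro α
    simp [hF, hg]
  have hpi : ∀ α, ∫⁻ t in Iio (0 : ℝ), g α t = F (π - α) := by
    intro α
    have h3 : ∫⁻ t in Iio (0 : ℝ), g α t = ∫⁻ t in Ioi (0 : ℝ), g α (-t) := by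
      have := (Measure.measurePreserving_neg (volume : Measure ℝ)).setLIntegral_comp_emb
        (Homeomorph.neg ℝ).measurableEmbedding (fun t => g α t) (Ioi 0)
      simpa using this.symm
    rw [h3]
    refine lintegral_congr fun t => ?_
    simp only [hg, Real.sin_pi_sub, Real.cos_pi_sub]
    congr 2
    ring
  have h4 : ∫⁻ α in Ioo (-π) π, F α = (∫⁻ α in Ioo 0 π, F α) + ∫⁻ α in Ioo 0 π, F α := by
    have h5 : ∫⁻ α in Ioc (-π) 0, F α = ∫⁻ α in Ioo 0 π, F α := by
      rw [setLIntegral_congr Ioo_ae_eq_Ioc.symm]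
      have := (Measure.measurePreserving_neg (volume : Measure ℝ)).setLIntegral_comp_emb
        (Homeomorph.neg ℝ).measurableEmbedding (fun t => F t) (Ioo 0 π)
      simp only [image_neg_Ioo, neg_zero] at this
      rw [this.symm]
      exact lintegral_congr fun t => (hneg t).symm ▸ rfl
    rw [← Ioc_union_Ioo_eq_Ioo (by linarith [Real.pi_pos]) Real.pi_pos,
      lintegral_union measurableSet_Ioo, h5]
    rw [Set.disjoint_left]
    rintro x ⟨_, hx⟩ ⟨hx', _⟩
    linarith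
  have h7 : ∫⁻ α in Ioo 0 π, F α = ∫⁻ α in Ioo 0 π, F (π - α) := by
    have := (Measure.measurePreserving_sub_left (volume : Measure ℝ) π).setLIntegral_comp_emb
      (Homeomorph.subLeft π).measurableEmbedding (fun t => F t) (Ioo 0 π)
    simp only [image_const_sub_Ioo, sub_zero, sub_self] at this
    rw [this.symm]
  have h9 : ∫⁻ α in Ioo (-π) π, F α = (∫⁻ α in Ioo 0 π, F α) + ∫⁻ α in Ioo 0 π, F (π - α) := by
    rw [← h7, h4]
  rw [h9, ← lintegral_add_left hFm]
  refine lintegral_congr fun α => ?_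
  rw [← hpi]
  have h8 : F α + ∫⁻ t in Iio (0 : ℝ), g α t = ∫⁻ t, g α t := by
    rw [setLIntegral_congr Iio_ae_eq_Iic, ← compl_Ioi]
    exact lintegral_add_compl (g α) measurableSet_Ioi
  rw [h8]
  simp only [hg]
  exact lintegral_sub_right_eq_self (fun t => Φ (c - r ^ 2 * Real.sin α ^ 2 - t ^ 2)) _

theorem lint_sqrt (c : ℝ) :
    ∫⁻ t : ℝ, ENNReal.ofReal (√(c - t ^ 2)) = ENNReal.ofReal (π / 2 * c) := by
  rcases le_or_gt c 0 with hc | hc
  · have h1 : ∀ t : ℝ, ENNReal.ofReal (√(c - t ^ 2)) = 0 := by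
      intro t
      rw [Real.sqrt_eq_zero_of_nonpos (by nlinarith [sq_nonneg t])]
      simp
    simp only [h1, lintegral_zero]
    rw [ENNReal.ofReal_of_nonpos]
    have := Real.pi_pos
    nlinarith
  · set s := √c with hs
    have hs0 : 0 < s := Real.sqrt_pos.2 hc
    have hsc : s ^ 2 = c := Real.sq_sqrt hc.le
    have h1 : ∫⁻ t : ℝ, ENNReal.ofReal (√(c - t ^ 2)) =
        ∫⁻ t in Ioc (-s) s, ENNReal.ofReal (√(c - t ^ 2)) := by
      rw [← lintegral_indicator measurableSet_Ioc]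
      refine lintegral_congr fun t => ?_
      by_cases ht : t ∈ Ioc (-s) s
      · rw [indicator_of_mem ht]
      · rw [indicator_of_notMem ht, Real.sqrt_eq_zero_of_nonpos, ENNReal.ofReal_zero]
        rw [mem_Ioc, not_and_or, not_lt, not_le] at ht
        rcases ht with ht | ht <;> nlinarith
    have hcont : Continuous fun t : ℝ => √(c - t ^ 2) := by fun_prop
    rw [h1, ← ofReal_integral_eq_lintegral_ofReal, ← intervalIntegral.integral_of_le (by linarith)]
    · congr 1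
      have h2 : ∫ t in (-s)..s, √(c - t ^ 2) = s * ∫ x in (-1 : ℝ)..1, √(c - (s * x) ^ 2) := by
        rw [intervalIntegral.mul_integral_comp_mul_left (f := fun t => √(c - t ^ 2))]
        simp
      rw [h2]
      have h3 : ∀ x : ℝ, √(c - (s * x) ^ 2) = s * √(1 - x ^ 2) := by
        intro x
        rw [mul_pow, hsc, ← mul_one_sub, Real.sqrt_mul hc.le]
      simp_rw [h3]
      rw [intervalIntegral.integral_const_mul, integral_sqrt_one_sub_sq]
      rw [← hsc]
      ring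
    · exact (hcont.integrableOn_Icc).mono_set Ioc_subset_Icc_self
    · exact Filter.Eventually.of_forall fun t => Real.sqrt_nonneg _

theorem ofReal_integral_le {α : Type*} [MeasurableSpace α] {μ : Measure α} {f : α → ℝ}
    (hf : Integrable f μ) : ENNReal.ofReal (∫ x, f x ∂μ) ≤ ∫⁻ x, ENNReal.ofReal (f x) ∂μ := by
  have h1 : ∫ x, f x ∂μ ≤ ∫ x, max (f x) 0 ∂μ :=
    integral_mono hf hf.pos_part fun x => le_max_left _ _
  refine (ENNReal.ofReal_le_ofReal h1).trans (le_of_eq ?_)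
  rw [ofReal_integral_eq_lintegral_ofReal hf.pos_part (Filter.Eventually.of_forall fun x => le_max_right _ _)]
  refine lintegral_congr fun x => ?_
  rcases le_total (f x) 0 with h | h
  · rw [max_eq_right h, ENNReal.ofReal_of_nonpos h, ENNReal.ofReal_zero]
  · rw [max_eq_left h]

/-- The potential of the Hertz density `√(c - |ζ-b|²)` at the origin, as an integral over directions. -/
theorem hertz_eq (c : ℝ) (b : ℂ) :
    ∫⁻ ζ : ℂ, ENNReal.ofReal (√(c - ‖ζ - b‖ ^ 2)) * (‖ζ‖ₑ)⁻¹ =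
      ∫⁻ α in Ioo 0 π, ENNReal.ofReal (π / 2 * (c - ‖b‖ ^ 2 * Real.sin α ^ 2)) := by
  rw [polar_gen (fun s => ENNReal.ofReal (√s)) (by fun_prop)]
  refine lintegral_congr fun α => ?_
  rw [← lint_sqrt]

theorem hertz_lower (c : ℝ) (b : ℂ) :
    ENNReal.ofReal (π ^ 2 / 4 * (2 * c - ‖b‖ ^ 2)) ≤
      ∫⁻ ζ : ℂ, ENNReal.ofReal (√(c - ‖ζ - b‖ ^ 2)) * (‖ζ‖ₑ)⁻¹ := by
  rw [hertz_eq]
  have hcont : Continuous fun α : ℝ => π / 2 * (c - ‖b‖ ^ 2 * Real.sin α ^ 2) := by fun_prop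
  have hint : IntegrableOn (fun α : ℝ => π / 2 * (c - ‖b‖ ^ 2 * Real.sin α ^ 2)) (Ioo 0 π) :=
    (hcont.integrableOn_Icc (a := 0) (b := π)).mono_set Ioo_subset_Icc_self
  refine le_trans (le_of_eq ?_) (ofReal_integral_le hint)
  congr 1
  rw [← integral_Ioc_eq_integral_Ioo, ← intervalIntegral.integral_of_le Real.pi_pos.le,
    intervalIntegral.integral_const_mul, intervalIntegral.integral_sub (by simp)
      ((by fun_prop : Continuous fun x : ℝ => ‖b‖ ^ 2 * Real.sin x ^ 2).intervalIntegrable _ _),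
    intervalIntegral.integral_const_mul, integral_sin_sq]
  simp
  ring

theorem hertz_upper (R θ : ℝ) (hθ0 : 0 ≤ θ) (hθ : θ ≤ π / 2) (b : ℂ) (hb : ‖b‖ = R) :
    ∫⁻ ζ : ℂ, ENNReal.ofReal (√((R * Real.sin θ) ^ 2 - ‖ζ - b‖ ^ 2)) * (‖ζ‖ₑ)⁻¹ ≤
      ENNReal.ofReal (π * R ^ 2 * (θ * Real.sin θ ^ 2 - θ / 2 + Real.sin (2 * θ) / 4)) := by
  rw [hertz_eq, hb]
  set G : ℝ → ℝ≥0∞ := fun α => ENNReal.ofReal (π / 2 * ((R * Real.sin θ) ^ 2 - R ^ 2 * Real.sin α ^ 2)) with hG
  have hsθ : 0 ≤ Real.sin θ := Real.sin_nonneg_of_nonneg_of_le_pi hθ0 (by linarith [Real.pi_pos])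
  have h1 : Ioo 0 π ⊆ (Ioc 0 θ ∪ Ico (π - θ) π) ∪ Ioo θ (π - θ) := by
    intro x hx
    simp only [mem_union, mem_Ioc, mem_Ico, mem_Ioo] at hx ⊢
    by_cases h : x ≤ θ
    · exact Or.inl (Or.inl ⟨hx.1, h⟩)
    · by_cases h' : π - θ ≤ x
      · exact Or.inl (Or.inr ⟨h', hx.2⟩)
      · exact Or.inr ⟨not_le.1 h, not_le.1 h'⟩
  have h2 : ∫⁻ α in Ioo θ (π - θ), G α = 0 := by
    rw [setLIntegral_congr_fun (g := fun _ => 0) measurableSet_Ioo]
    · simp
    intro α hα
    simp only [hG]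
    apply ENNReal.ofReal_of_nonpos
    have h3 : Real.sin θ ≤ Real.sin α := by
      rcases le_or_gt α (π / 2) with h | h
      · exact Real.sin_le_sin_of_le_of_le_pi_div_two (by linarith [Real.pi_pos]) h hα.1.le
      · rw [← Real.sin_pi_sub α]
        exact Real.sin_le_sin_of_le_of_le_pi_div_two (by linarith [Real.pi_pos]) (by linarith)
          (by linarith [hα.2])
    have h4 : Real.sin θ ^ 2 ≤ Real.sin α ^ 2 := by nlinarith
    have := Real.pi_pos
    have h5 : (R * Real.sin θ) ^ 2 - R ^ 2 * Real.sin α ^ 2 ≤ 0 := by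
      rw [mul_pow]
      nlinarith [sq_nonneg R]
    exact mul_nonpos_of_nonneg_of_nonpos (by positivity) h5
  have h3 : ∫⁻ α in Ico (π - θ) π, G α = ∫⁻ α in Ioc 0 θ, G α := by
    have := (Measure.measurePreserving_sub_left (volume : Measure ℝ) π).setLIntegral_comp_emb
      (Homeomorph.subLeft π).measurableEmbedding G (Ioc 0 θ)
    simp only [image_const_sub_Ioc, sub_zero] at this
    rw [this.symm]
    refine lintegral_congr fun α => ?_
    simp only [hG, Real.sin_pi_sub]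
  have h4 : ∫⁻ α in Ioc 0 θ, G α =
      ENNReal.ofReal (π / 2 * R ^ 2 * (θ * Real.sin θ ^ 2 - θ / 2 + Real.sin (2 * θ) / 4)) := by
    have hcont : Continuous fun α : ℝ => π / 2 * ((R * Real.sin θ) ^ 2 - R ^ 2 * Real.sin α ^ 2) := by
      fun_prop
    rw [hG, ← ofReal_integral_eq_lintegral_ofReal]
    · congr 1
      rw [← intervalIntegral.integral_of_le hθ0,
        intervalIntegral.integral_const_mul, intervalIntegral.integral_sub (by simp)
        ((by fun_prop : Continuous fun x : ℝ => R ^ 2 * Real.sin x ^ 2).intervalIntegrable _ _),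
        intervalIntegral.integral_const_mul, integral_sin_sq, Real.sin_two_mul]
      simp
      ring
    · exact (hcont.integrableOn_Icc).mono_set Ioc_subset_Icc_self
    · refine (ae_restrict_iff' measurableSet_Ioc).2 (Filter.Eventually.of_forall fun α hα => ?_)
      have h5 : Real.sin α ≤ Real.sin θ :=
        Real.sin_le_sin_of_le_of_le_pi_div_two (by linarith [Real.pi_pos, hα.1]) hθ hα.2
      have h6 : 0 ≤ Real.sin α := Real.sin_nonneg_of_nonneg_of_le_pi hα.1.le (by linarith [Real.pi_pos, hα.2])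
      have h7 : Real.sin α ^ 2 ≤ Real.sin θ ^ 2 := by nlinarith
      have := Real.pi_pos
      have h8 : 0 ≤ (R * Real.sin θ) ^ 2 - R ^ 2 * Real.sin α ^ 2 := by
        rw [mul_pow]
        nlinarith [sq_nonneg R]
      exact mul_nonneg (by positivity) h8
  calc ∫⁻ α in Ioo 0 π, G α ≤ ∫⁻ α in (Ioc 0 θ ∪ Ico (π - θ) π) ∪ Ioo θ (π - θ), G α := lintegral_mono_set h1
    _ ≤ (∫⁻ α in (Ioc 0 θ ∪ Ico (π - θ) π), G α) + ∫⁻ α in Ioo θ (π - θ), G α := lintegral_union_le _ _ _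
    _ ≤ ((∫⁻ α in Ioc 0 θ, G α) + ∫⁻ α in Ico (π - θ) π, G α) + 0 := by
        rw [h2]
        gcongr
        exact lintegral_union_le _ _ _
    _ = _ := by
        rw [h3, h4, add_zero]
        have h9 : 0 ≤ π / 2 * R ^ 2 * (θ * Real.sin θ ^ 2 - θ / 2 + Real.sin (2 * θ) / 4) ∨
          π / 2 * R ^ 2 * (θ * Real.sin θ ^ 2 - θ / 2 + Real.sin (2 * θ) / 4) < 0 := le_or_gt _ _
        rcases h9 with h9 | h9
        · rw [← ENNReal.ofReal_add h9 h9]
          congr 1
          ring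
        · rw [ENNReal.ofReal_of_nonpos h9.le, ENNReal.ofReal_of_nonpos (by nlinarith), add_zero]

end Pool.Agent.Helper27.Cap
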