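import Pool.Agent.Helper27_Cap.Hertz

/-!
# The differential inequality for Newtonian potentials of planar measures
-/

namespace Pool.Agent.Helper27.Cap

open MeasureTheory Set Real
open scoped ENNReal ComplexConjugate

/-- inversion identity -/
theorem inv_identity (s w : ℂ) (hs : s ≠ 0) (hw : w ≠ 0) :
    ‖s‖ * ‖(conj s)⁻¹ - w‖ = ‖w‖ * ‖s - (conj w)⁻¹‖ := by
  have hs' : conj s ≠ 0 := by simpa using hs
  have hw' : conj w ≠ 0 := by simpa using hw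
  have h1 : ‖s‖ * ‖(conj s)⁻¹ - w‖ = ‖1 - conj s * w‖ := by
    have : ‖s‖ = ‖conj s‖ := by simp
    rw [this, ← norm_mul, mul_sub, mul_inv_cancel₀ hs']
  have h2 : ‖w‖ * ‖s - (conj w)⁻¹‖ = ‖conj w * s - 1‖ := by
    have : ‖w‖ = ‖conj w‖ := by simp
    rw [this, ← norm_mul, mul_sub, mul_inv_cancel₀ hw']
  rw [h1, h2, norm_sub_rev, ← Complex.norm_conj]
  congr 1
  simp [mul_comm]

theorem norm_sq_sub_inv (a s : ℂ) (hs : s ≠ 0) :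
    ‖a - (conj s)⁻¹‖ ^ 2 = ‖a‖ ^ 2 - 2 * (a.re * s.re + a.im * s.im) * (‖s‖⁻¹) ^ 2 + (‖s‖⁻¹) ^ 2 := by
  have hs' : ‖s‖ ≠ 0 := by simpa using hs
  have h1 : (conj s)⁻¹ = ((‖s‖⁻¹) ^ 2 : ℝ) * s := by
    rw [Complex.inv_def, Complex.conj_conj, Complex.normSq_conj, Complex.normSq_eq_norm_sq]
    push_cast
    rw [inv_pow, mul_comm]
  rw [h1]
  have h2 : ‖s‖ ^ 2 = s.re ^ 2 + s.im ^ 2 := by
    rw [Complex.sq_norm, Complex.normSq_apply]; ring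
  rw [Complex.sq_norm, Complex.sq_norm a, Complex.normSq_apply, Complex.normSq_apply]
  simp only [Complex.sub_re, Complex.mul_re, Complex.ofReal_re, Complex.ofReal_im, zero_mul, sub_zero,
    Complex.sub_im, Complex.mul_im, add_zero]
  have h3 : (‖s‖⁻¹ ^ 2) * (s.re ^ 2 + s.im ^ 2) = 1 := by
    rw [← h2]; field_simp
  linear_combination (‖s‖⁻¹ ^ 2) * h3

/-- Integration of the Hertz certificate. -/
theorem lp_lintegral {σ : Measure ℂ} [SFinite σ] {x : ℂ}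
    (hx : ∀ᵐ y ∂σ, y ≠ x) (hU : ∀ z : ℂ, ∫⁻ y, (‖z - y‖ₑ)⁻¹ ∂σ ≤ 1)
    (a : ℂ) (θ : ℝ) (hθ0 : 0 ≤ θ) (hθ : θ ≤ π / 2) :
    ∫⁻ y, (‖y - x‖ₑ)⁻¹ * ENNReal.ofReal (π ^ 2 / 4 * (2 * (‖a‖ * Real.sin θ) ^ 2 -
        ‖a - (conj (y - x))⁻¹‖ ^ 2)) ∂σ ≤
      ENNReal.ofReal (π * ‖a‖ ^ 2 * (θ * Real.sin θ ^ 2 - θ / 2 + Real.sin (2 * θ) / 4)) := by
  set c : ℝ := (‖a‖ * Real.sin θ) ^ 2 with hc
  set h : ℂ → ℝ≥0∞ := fun w => ENNReal.ofReal (√(c - ‖w - a‖ ^ 2)) with hh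
  have hhm : Measurable h := by fun_prop
  have h1 : ∀ s : ℂ, ENNReal.ofReal (π ^ 2 / 4 * (2 * c - ‖a - (conj s)⁻¹‖ ^ 2)) ≤
      ∫⁻ w, h w * (‖w - (conj s)⁻¹‖ₑ)⁻¹ := by
    intro s
    refine (hertz_lower c (a - (conj s)⁻¹)).trans (le_of_eq ?_)
    rw [← lintegral_sub_right_eq_self _ ((conj s)⁻¹)]
    refine lintegral_congr fun w => ?_
    simp only [hh]
    congr 4
    congr 1
    ring_nf
  have hconj : Measurable fun s : ℂ => (conj s)⁻¹ := (Complex.continuous_conj.measurable).inv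
  have hmeas : Measurable (Function.uncurry fun (y w : ℂ) =>
      h w * ((‖y - x‖ₑ)⁻¹ * (‖w - (conj (y - x))⁻¹‖ₑ)⁻¹)) := by
    have h3 : Measurable fun p : ℂ × ℂ => (conj (p.1 - x))⁻¹ :=
      hconj.comp (measurable_fst.sub_const x)
    have h4 : Measurable fun p : ℂ × ℂ => ‖p.2 - (conj (p.1 - x))⁻¹‖ₑ := (measurable_snd.sub h3).enorm
    have h5 : Measurable fun p : ℂ × ℂ => ‖p.1 - x‖ₑ := (measurable_fst.sub_const x).enorm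
    exact (hhm.comp measurable_snd).mul (h5.inv.mul h4.inv)
  calc ∫⁻ y, (‖y - x‖ₑ)⁻¹ * ENNReal.ofReal (π ^ 2 / 4 * (2 * c - ‖a - (conj (y - x))⁻¹‖ ^ 2)) ∂σ
      ≤ ∫⁻ y, (‖y - x‖ₑ)⁻¹ * (∫⁻ w, h w * (‖w - (conj (y - x))⁻¹‖ₑ)⁻¹) ∂σ := by
        refine lintegral_mono fun y => ?_
        gcongr
        exact h1 _
    _ = ∫⁻ y, (∫⁻ w, h w * ((‖y - x‖ₑ)⁻¹ * (‖w - (conj (y - x))⁻¹‖ₑ)⁻¹)) ∂σ := by
        refine lintegral_congr fun y => ?_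
        rw [← lintegral_const_mul _ (by fun_prop)]
        refine lintegral_congr fun w => ?_
        ring
    _ = ∫⁻ w, (∫⁻ y, h w * ((‖y - x‖ₑ)⁻¹ * (‖w - (conj (y - x))⁻¹‖ₑ)⁻¹) ∂σ) := by
        rw [lintegral_lintegral_swap hmeas.aemeasurable]
    _ ≤ ∫⁻ w, h w * (‖w‖ₑ)⁻¹ := by
        refine lintegral_mono_ae ?_
        have h0 : ∀ᵐ w : ℂ, w ≠ 0 := by
          simp [ae_iff, measure_singleton]
        filter_upwards [h0] with w hw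
        have hm : Measurable fun y : ℂ => (‖y - x‖ₑ)⁻¹ * (‖w - (conj (y - x))⁻¹‖ₑ)⁻¹ := by
          have h3 : Measurable fun y : ℂ => (conj (y - x))⁻¹ := hconj.comp (measurable_id.sub_const x)
          exact (by fun_prop : Measurable fun y : ℂ => ‖y - x‖ₑ).inv.mul ((measurable_const.sub h3).enorm.inv)
        rw [lintegral_const_mul _ hm]
        gcongr
        have h2 : ∀ᵐ y ∂σ, (‖y - x‖ₑ)⁻¹ * (‖w - (conj (y - x))⁻¹‖ₑ)⁻¹ =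
            (‖w‖ₑ)⁻¹ * (‖(x + (conj w)⁻¹) - y‖ₑ)⁻¹ := by
          filter_upwards [hx] with y hy
          have hs : y - x ≠ 0 := sub_ne_zero.2 hy
          rw [← ENNReal.mul_inv (by simp) (by simp), ← ENNReal.mul_inv (by simp) (by simp)]
          congr 1
          rw [← ofReal_norm, ← ofReal_norm, ← ofReal_norm, ← ofReal_norm,
            ← ENNReal.ofReal_mul (norm_nonneg _), ← ENNReal.ofReal_mul (norm_nonneg _),
            norm_sub_rev w, inv_identity _ _ hs hw, norm_sub_rev (x + _) y]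
          congr 3
          ring
        rw [lintegral_congr_ae h2, lintegral_const_mul _ (by fun_prop)]
        calc _ ≤ (‖w‖ₑ)⁻¹ * 1 := by
              gcongr
              exact hU _
          _ = _ := mul_one _
    _ ≤ _ := hertz_upper ‖a‖ θ hθ0 hθ a rfl

section real

variable {σ : Measure ℂ} [IsFiniteMeasure σ] {x : ℂ} {d : ℝ}

omit [IsFiniteMeasure σ] in
theorem ae_bound_inv (hd : 0 < d) (hx : ∀ᵐ y ∂σ, d ≤ ‖y - x‖) : ∀ᵐ y ∂σ, ‖y - x‖⁻¹ ≤ d⁻¹ := by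
  filter_upwards [hx] with y hy
  exact inv_anti₀ hd hy

theorem int_pow (hd : 0 < d) (hx : ∀ᵐ y ∂σ, d ≤ ‖y - x‖) (n : ℕ) :
    Integrable (fun y => (‖y - x‖⁻¹) ^ n) σ := by
  refine Integrable.of_bound (by fun_prop) ((d⁻¹) ^ n) ?_
  filter_upwards [ae_bound_inv hd hx] with y hy
  rw [Real.norm_of_nonneg (by positivity)]
  gcongr

theorem int_inv (hd : 0 < d) (hx : ∀ᵐ y ∂σ, d ≤ ‖y - x‖) :
    Integrable (fun y => ‖y - x‖⁻¹) σ := by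
  simpa using int_pow hd hx 1

theorem int_re (hd : 0 < d) (hx : ∀ᵐ y ∂σ, d ≤ ‖y - x‖) :
    Integrable (fun y => (y - x).re * (‖y - x‖⁻¹) ^ 3) σ := by
  refine Integrable.of_bound (by fun_prop) ((d⁻¹) ^ 2) ?_
  filter_upwards [ae_bound_inv hd hx, hx] with y hy hy'
  rw [Real.norm_eq_abs, abs_mul, abs_of_nonneg (by positivity : 0 ≤ (‖y - x‖⁻¹) ^ 3)]
  have h1 : |(y - x).re| ≤ ‖y - x‖ := Complex.abs_re_le_norm _
  have h2 : 0 < ‖y - x‖ := hd.trans_le hy'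
  calc |(y - x).re| * (‖y - x‖⁻¹) ^ 3 ≤ ‖y - x‖ * (‖y - x‖⁻¹) ^ 3 := by gcongr
    _ = (‖y - x‖⁻¹) ^ 2 := by field_simp
    _ ≤ _ := by gcongr

theorem int_im (hd : 0 < d) (hx : ∀ᵐ y ∂σ, d ≤ ‖y - x‖) :
    Integrable (fun y => (y - x).im * (‖y - x‖⁻¹) ^ 3) σ := by
  refine Integrable.of_bound (by fun_prop) ((d⁻¹) ^ 2) ?_
  filter_upwards [ae_bound_inv hd hx, hx] with y hy hy'
  rw [Real.norm_eq_abs, abs_mul, abs_of_nonneg (by positivity : 0 ≤ (‖y - x‖⁻¹) ^ 3)]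
  have h1 : |(y - x).im| ≤ ‖y - x‖ := Complex.abs_im_le_norm _
  have h2 : 0 < ‖y - x‖ := hd.trans_le hy'
  calc |(y - x).im| * (‖y - x‖⁻¹) ^ 3 ≤ ‖y - x‖ * (‖y - x‖⁻¹) ^ 3 := by gcongr
    _ = (‖y - x‖⁻¹) ^ 2 := by field_simp
    _ ≤ _ := by gcongr

theorem f_nonneg (θ : ℝ) (hθ0 : 0 ≤ θ) (hθ : θ ≤ π / 2) :
    0 ≤ θ * Real.sin θ ^ 2 - θ / 2 + Real.sin (2 * θ) / 4 := by
  have h1 : θ * Real.cos θ ≤ Real.sin θ := by
    rcases hθ.eq_or_lt with h | h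
    · rw [h]; simp
    · have h2 := Real.le_tan hθ0 h
      have h3 : 0 < Real.cos θ := Real.cos_pos_of_mem_Ioo ⟨by linarith [Real.pi_pos], h⟩
      rw [Real.tan_eq_sin_div_cos, le_div_iff₀ h3] at h2
      exact h2
  have h3 : 0 ≤ Real.cos θ := Real.cos_nonneg_of_mem_Icc ⟨by linarith [Real.pi_pos], hθ⟩
  rw [Real.sin_two_mul]
  have h4 := Real.sin_sq_add_cos_sq θ
  have h5 : 0 ≤ Real.cos θ * (Real.sin θ - θ * Real.cos θ) := mul_nonneg h3 (by linarith)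
  nlinarith [mul_nonneg hθ0 (sq_nonneg (Real.sin θ))]

theorem lp_real (hd : 0 < d) (hx : ∀ᵐ y ∂σ, d ≤ ‖y - x‖)
    (hU : ∀ z : ℂ, ∫⁻ y, (‖z - y‖ₑ)⁻¹ ∂σ ≤ 1)
    (a : ℂ) (θ : ℝ) (hθ0 : 0 ≤ θ) (hθ : θ ≤ π / 2) :
    π ^ 2 / 4 * ((2 * (‖a‖ * Real.sin θ) ^ 2 - ‖a‖ ^ 2) * (∫ y, ‖y - x‖⁻¹ ∂σ) +
      2 * (a.re * (∫ y, (y - x).re * (‖y - x‖⁻¹) ^ 3 ∂σ) + a.im * (∫ y, (y - x).im * (‖y - x‖⁻¹) ^ 3 ∂σ))
      - ∫ y, (‖y - x‖⁻¹) ^ 3 ∂σ) ≤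
      π * ‖a‖ ^ 2 * (θ * Real.sin θ ^ 2 - θ / 2 + Real.sin (2 * θ) / 4) := by
  have hx' : ∀ᵐ y ∂σ, y ≠ x := by
    filter_upwards [hx] with y hy h
    rw [h] at hy
    simp at hy
    linarith
  have h1 := lp_lintegral hx' hU a θ hθ0 hθ
  have hB : 0 ≤ π * ‖a‖ ^ 2 * (θ * Real.sin θ ^ 2 - θ / 2 + Real.sin (2 * θ) / 4) :=
    mul_nonneg (by positivity) (f_nonneg θ hθ0 hθ)
  have e1 := int_inv hd hx
  have e3 := int_pow hd hx 3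
  have er := int_re hd hx
  have ei := int_im hd hx
  set c : ℝ := (‖a‖ * Real.sin θ) ^ 2 with hc
  have hint : Integrable (fun y => π ^ 2 / 4 * ((2 * c - ‖a‖ ^ 2) * ‖y - x‖⁻¹ +
      2 * (a.re * ((y - x).re * (‖y - x‖⁻¹) ^ 3) + a.im * ((y - x).im * (‖y - x‖⁻¹) ^ 3)) -
      (‖y - x‖⁻¹) ^ 3)) σ :=
    (((e1.const_mul _).add (((er.const_mul _).add (ei.const_mul _)).const_mul _)).sub e3).const_mul _
  have h2 : ∫⁻ y, ENNReal.ofReal (π ^ 2 / 4 * ((2 * c - ‖a‖ ^ 2) * ‖y - x‖⁻¹ +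
      2 * (a.re * ((y - x).re * (‖y - x‖⁻¹) ^ 3) + a.im * ((y - x).im * (‖y - x‖⁻¹) ^ 3)) -
      (‖y - x‖⁻¹) ^ 3)) ∂σ =
      ∫⁻ y, (‖y - x‖ₑ)⁻¹ * ENNReal.ofReal (π ^ 2 / 4 * (2 * c - ‖a - (conj (y - x))⁻¹‖ ^ 2)) ∂σ := by
    refine lintegral_congr_ae ?_
    filter_upwards [hx'] with y hy
    have hs : y - x ≠ 0 := sub_ne_zero.2 hy
    have hs' : 0 < ‖y - x‖ := norm_pos_iff.2 hs
    rw [← ofReal_norm, ← ENNReal.ofReal_inv_of_pos hs', ← ENNReal.ofReal_mul (by positivity),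
      norm_sq_sub_inv a _ hs]
    congr 1
    ring
  have h3 := (ofReal_integral_le hint).trans (h2.le.trans h1)
  rw [ENNReal.ofReal_le_ofReal_iff hB] at h3
  refine le_trans (le_of_eq ?_) h3
  have i1 : Integrable (fun y => (2 * c - ‖a‖ ^ 2) * ‖y - x‖⁻¹) σ := e1.const_mul _
  have i2 : Integrable (fun y => a.re * ((y - x).re * (‖y - x‖⁻¹) ^ 3)) σ := er.const_mul _
  have i3 : Integrable (fun y => a.im * ((y - x).im * (‖y - x‖⁻¹) ^ 3)) σ := ei.const_mul _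
  have i23 : Integrable (fun y => 2 * (a.re * ((y - x).re * (‖y - x‖⁻¹) ^ 3) +
    a.im * ((y - x).im * (‖y - x‖⁻¹) ^ 3))) σ := (i2.add i3).const_mul _
  have i123 : Integrable (fun y => (2 * c - ‖a‖ ^ 2) * ‖y - x‖⁻¹ + 2 * (a.re * ((y - x).re * (‖y - x‖⁻¹) ^ 3) +
    a.im * ((y - x).im * (‖y - x‖⁻¹) ^ 3))) σ := i1.add i23
  rw [integral_const_mul, integral_sub i123 e3, integral_add i1 i23,
    integral_const_mul, integral_const_mul, integral_add i2 i3,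
    integral_const_mul, integral_const_mul]

theorem pot_le_one (hd : 0 < d) (hx : ∀ᵐ y ∂σ, d ≤ ‖y - x‖)
    (hU : ∀ z : ℂ, ∫⁻ y, (‖z - y‖ₑ)⁻¹ ∂σ ≤ 1) : ∫ y, ‖y - x‖⁻¹ ∂σ ≤ 1 := by
  have h1 := ofReal_integral_le (int_inv hd hx)
  have h2 : ∫⁻ y, ENNReal.ofReal (‖y - x‖⁻¹) ∂σ = ∫⁻ y, (‖x - y‖ₑ)⁻¹ ∂σ := by
    refine lintegral_congr_ae ?_
    filter_upwards [hx] with y hy
    rw [ENNReal.ofReal_inv_of_pos (hd.trans_le hy), ofReal_norm, ← enorm_neg, neg_sub]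
  rw [h2] at h1
  have h3 := h1.trans (hU x)
  rwa [ENNReal.ofReal_le_one] at h3

/-- **The differential inequality**: `π |∇φ|² ≤ sin (π φ) Δφ`. -/
theorem diff_ineq (hd : 0 < d) (hx : ∀ᵐ y ∂σ, d ≤ ‖y - x‖)
    (hU : ∀ z : ℂ, ∫⁻ y, (‖z - y‖ₑ)⁻¹ ∂σ ≤ 1) :
    π * ((∫ y, (y - x).re * (‖y - x‖⁻¹) ^ 3 ∂σ) ^ 2 + (∫ y, (y - x).im * (‖y - x‖⁻¹) ^ 3 ∂σ) ^ 2) ≤
      Real.sin (π * ∫ y, ‖y - x‖⁻¹ ∂σ) * ∫ y, (‖y - x‖⁻¹) ^ 3 ∂σ := by
  set m := ∫ y, ‖y - x‖⁻¹ ∂σ with hm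
  set M := ∫ y, (‖y - x‖⁻¹) ^ 3 ∂σ with hM
  set vr := ∫ y, (y - x).re * (‖y - x‖⁻¹) ^ 3 ∂σ with hvr
  set vi := ∫ y, (y - x).im * (‖y - x‖⁻¹) ^ 3 ∂σ with hvi
  have hm0 : 0 ≤ m := integral_nonneg fun y => by positivity
  have hm1 : m ≤ 1 := pot_le_one hd hx hU
  have hpi := Real.pi_pos
  have key : ∀ t : ℝ, 0 ≤ Real.sin (π * m) / π * (vr ^ 2 + vi ^ 2) * (t * t) + (-2 * (vr ^ 2 + vi ^ 2)) * t + M := by
    intro t
    have h1 := lp_real hd hx hU (⟨t * vr, t * vi⟩ : ℂ) (π * m / 2) (by positivity) (by nlinarith)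
    have h2 : ‖(⟨t * vr, t * vi⟩ : ℂ)‖ ^ 2 = t ^ 2 * (vr ^ 2 + vi ^ 2) := by
      rw [Complex.sq_norm, Complex.normSq_mk]; ring
    rw [mul_pow, h2] at h1
    simp only [← hm, ← hM, ← hvr, ← hvi] at h1
    have h3 : Real.sin (π * m / 2) ^ 2 = (1 - Real.cos (π * m)) / 2 := by
      rw [Real.sin_sq_eq_half_sub]
      rw [show 2 * (π * m / 2) = π * m by ring]
      ring
    rw [h3, show 2 * (π * m / 2) = π * m by ring] at h1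
    have h4 : 0 ≤ (4 / π ^ 2) * (π * (t ^ 2 * (vr ^ 2 + vi ^ 2)) * (π * m / 2 * ((1 - Real.cos (π * m)) / 2) - π * m / 2 / 2 + Real.sin (π * m) / 4) -
      π ^ 2 / 4 * ((2 * ((t ^ 2 * (vr ^ 2 + vi ^ 2)) * ((1 - Real.cos (π * m)) / 2)) - t ^ 2 * (vr ^ 2 + vi ^ 2)) * m +
      2 * (t * vr * vr + t * vi * vi) - M)) := by
      apply mul_nonneg (by positivity)
      linarith
    refine h4.trans (le_of_eq ?_)
    field_simp
    ring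
  have h5 := discrim_le_zero key
  rw [discrim] at h5
  by_contra hcon
  push Not at hcon
  set W := vr ^ 2 + vi ^ 2 with hW
  have hW0 : 0 ≤ W := by positivity
  have hS : 0 ≤ Real.sin (π * m) := Real.sin_nonneg_of_nonneg_of_le_pi (by positivity) (by nlinarith)
  have hM0 : 0 ≤ M := integral_nonneg fun y => by positivity
  have hWpos : 0 < W := by
    rcases hW0.eq_or_lt with h | h
    · rw [← h] at hcon
      nlinarith [mul_nonneg hS hM0]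
    · exact h
  have h6 : W * W ≤ Real.sin (π * m) / π * W * M := by nlinarith
  have h7 : W ≤ Real.sin (π * m) / π * M := by
    have : W * W ≤ W * (Real.sin (π * m) / π * M) := by linarith
    exact le_of_mul_le_mul_left this hWpos
  have h8 : π * W ≤ Real.sin (π * m) * M := by
    calc π * W ≤ π * (Real.sin (π * m) / π * M) := by gcongr
      _ = Real.sin (π * m) * M := by field_simp
  linarith

end real

end Pool.Agent.Helper27.Cap
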