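import Pool.Agent.Helper27_Cap.Deriv

/-!
# Smoothed logarithmic potentials: derivatives along lines
-/

namespace Pool.Agent.Helper27.Cap

open MeasureTheory Set Filter Topology
open scoped ENNReal NNReal

/-- the smoothed logarithmic kernel -/
noncomputable def lk (δ : ℝ) (s : ℂ) : ℝ := -(1 / 2) * Real.log (‖s‖ ^ 2 + δ ^ 2)

theorem lk_cont {δ : ℝ} (hδ : 0 < δ) : Continuous (lk δ) := by
  unfold lk
  refine continuous_const.mul (Continuous.log (by fun_prop) fun s => ?_)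
  positivity

theorem lk_neg (δ : ℝ) (s : ℂ) : lk δ (-s) = lk δ s := by simp [lk]

theorem hasDerivAt_lk {δ : ℝ} (hδ : 0 < δ) (e s : ℂ) (he : ‖e‖ = 1) (t : ℝ) :
    HasDerivAt (fun t : ℝ => lk δ (s - t * e)) (comp e (s - t * e) / (‖s - t * e‖ ^ 2 + δ ^ 2)) t := by
  have h0 : ‖s - t * e‖ ^ 2 + δ ^ 2 ≠ 0 := by positivity
  have h1 := (((hasDerivAt_normSq e s he t).add_const (δ ^ 2)).log h0).const_mul (-(1 / 2))
  refine HasDerivAt.congr_deriv (f := fun t : ℝ => lk δ (s - t * e)) h1 ?_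
  ring

theorem hasDerivAt_lk2 {δ : ℝ} (hδ : 0 < δ) (e s : ℂ) (he : ‖e‖ = 1) (t : ℝ) :
    HasDerivAt (fun t : ℝ => comp e (s - t * e) / (‖s - t * e‖ ^ 2 + δ ^ 2))
      (2 * comp e (s - t * e) ^ 2 / (‖s - t * e‖ ^ 2 + δ ^ 2) ^ 2 - 1 / (‖s - t * e‖ ^ 2 + δ ^ 2)) t := by
  have h0 : ‖s - t * e‖ ^ 2 + δ ^ 2 ≠ 0 := by positivity
  have h1 := (hasDerivAt_comp e s he t).div ((hasDerivAt_normSq e s he t).add_const (δ ^ 2)) h0
  refine HasDerivAt.congr_deriv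
    (f := fun t : ℝ => comp e (s - t * e) / (‖s - t * e‖ ^ 2 + δ ^ 2)) h1 ?_
  field_simp
  ring

theorem comp_sq_le (e s : ℂ) (he : ‖e‖ = 1) : comp e s ^ 2 ≤ ‖s‖ ^ 2 := by
  have h3 := comp_abs_le e s he
  rw [← sq_abs]; gcongr

theorem comp_bound {δ : ℝ} (hδ : 0 < δ) (e s : ℂ) (he : ‖e‖ = 1) :
    |comp e s / (‖s‖ ^ 2 + δ ^ 2)| ≤ δ⁻¹ := by
  rw [abs_div, abs_of_pos (by positivity : 0 < ‖s‖ ^ 2 + δ ^ 2), div_le_iff₀ (by positivity)]
  refine (comp_abs_le e s he).trans ?_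
  rw [← div_eq_inv_mul, le_div_iff₀ hδ]
  nlinarith [sq_nonneg (‖s‖ - δ), sq_nonneg ‖s‖, sq_nonneg δ, norm_nonneg s, mul_nonneg (norm_nonneg s) hδ.le]

theorem comp_bound2 {δ : ℝ} (hδ : 0 < δ) (e s : ℂ) (he : ‖e‖ = 1) :
    |2 * comp e s ^ 2 / (‖s‖ ^ 2 + δ ^ 2) ^ 2 - 1 / (‖s‖ ^ 2 + δ ^ 2)| ≤ 2 * (δ ^ 2)⁻¹ := by
  have h1 : 0 < ‖s‖ ^ 2 + δ ^ 2 := by positivity
  have h2 : 1 / (‖s‖ ^ 2 + δ ^ 2) ≤ (δ ^ 2)⁻¹ := by
    rw [one_div]
    exact inv_anti₀ (by positivity) (by nlinarith [sq_nonneg ‖s‖])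
  have h3 : 0 ≤ 1 / (‖s‖ ^ 2 + δ ^ 2) := by positivity
  have h4 : 0 ≤ 2 * comp e s ^ 2 / (‖s‖ ^ 2 + δ ^ 2) ^ 2 := by positivity
  have h5 : 2 * comp e s ^ 2 / (‖s‖ ^ 2 + δ ^ 2) ^ 2 ≤ 2 * (1 / (‖s‖ ^ 2 + δ ^ 2)) := by
    rw [mul_div_assoc]
    refine mul_le_mul_of_nonneg_left ?_ (by norm_num)
    rw [div_le_div_iff₀ (by positivity) h1]
    have := comp_sq_le e s he
    nlinarith [sq_nonneg δ]
  rw [abs_le]
  constructor <;> linarith

theorem comp_meas (e : ℂ) : Measurable (comp e) := by unfold comp; fun_prop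

theorem comp_cont (e : ℂ) : Continuous (comp e) := by unfold comp; fun_prop

section Log

variable {ν : Measure ℂ} [IsFiniteMeasure ν] {δ : ℝ}

theorem log_deriv1 (hδ : 0 < δ) (hint : ∀ x, Integrable (fun y => lk δ (y - x)) ν) (x e : ℂ)
    (he : ‖e‖ = 1) (t : ℝ) :
    HasDerivAt (fun t : ℝ => ∫ y, lk δ ((y - x) - t * e) ∂ν)
      (∫ y, comp e ((y - x) - t * e) / (‖(y - x) - t * e‖ ^ 2 + δ ^ 2) ∂ν) t := by
  have hl := lk_cont hδ
  refine (hasDerivAt_integral_of_dominated_loc_of_deriv_le (μ := ν) (x₀ := t)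
    (F := fun (t : ℝ) y => lk δ ((y - x) - t * e))
    (F' := fun (t : ℝ) y => comp e ((y - x) - t * e) / (‖(y - x) - t * e‖ ^ 2 + δ ^ 2))
    (s := univ) (bound := fun _ => δ⁻¹) univ_mem ?_ ?_ ?_ ?_ ?_ ?_).2
  · exact Eventually.of_forall fun t => (hl.comp (by fun_prop)).aestronglyMeasurable
  · have := hint (x + t * e)
    simpa only [sub_sub] using this
  · exact (((comp_meas e).comp (by fun_prop)).div (by fun_prop)).aestronglyMeasurable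
  · refine Eventually.of_forall fun y t _ => ?_
    rw [Real.norm_eq_abs]
    exact comp_bound hδ e _ he
  · exact integrable_const _
  · exact Eventually.of_forall fun y t _ => hasDerivAt_lk hδ e _ he t

theorem log_deriv2 (hδ : 0 < δ) (x e : ℂ) (he : ‖e‖ = 1) :
    HasDerivAt (fun t : ℝ => ∫ y, comp e ((y - x) - t * e) / (‖(y - x) - t * e‖ ^ 2 + δ ^ 2) ∂ν)
      (∫ y, (2 * comp e (y - x) ^ 2 / (‖y - x‖ ^ 2 + δ ^ 2) ^ 2 - 1 / (‖y - x‖ ^ 2 + δ ^ 2)) ∂ν) 0 := by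
  have hcm := comp_meas e
  have key := (hasDerivAt_integral_of_dominated_loc_of_deriv_le (μ := ν) (x₀ := (0 : ℝ))
    (F := fun (t : ℝ) y => comp e ((y - x) - t * e) / (‖(y - x) - t * e‖ ^ 2 + δ ^ 2))
    (F' := fun (t : ℝ) y => 2 * comp e ((y - x) - t * e) ^ 2 / (‖(y - x) - t * e‖ ^ 2 + δ ^ 2) ^ 2 -
      1 / (‖(y - x) - t * e‖ ^ 2 + δ ^ 2))
    (s := univ) (bound := fun _ => 2 * (δ ^ 2)⁻¹) univ_mem ?_ ?_ ?_ ?_ ?_ ?_).2
  · simpa using key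
  · exact Eventually.of_forall fun t => ((hcm.comp (by fun_prop)).div (by fun_prop)).aestronglyMeasurable
  · refine Integrable.of_bound ((hcm.comp (by fun_prop)).div (by fun_prop)).aestronglyMeasurable δ⁻¹
      (Eventually.of_forall fun y => ?_)
    rw [Real.norm_eq_abs]
    exact comp_bound hδ e _ he
  · exact ((((hcm.comp (by fun_prop)).pow_const 2).const_mul 2 |>.div (by fun_prop)).sub
      (by fun_prop)).aestronglyMeasurable
  · refine Eventually.of_forall fun y t _ => ?_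
    rw [Real.norm_eq_abs]
    exact comp_bound2 hδ e _ he
  · exact integrable_const _
  · exact Eventually.of_forall fun y t _ => hasDerivAt_lk2 hδ e _ he t

theorem log_int2 (hδ : 0 < δ) (x e : ℂ) (he : ‖e‖ = 1) :
    Integrable (fun y => 2 * comp e (y - x) ^ 2 / (‖y - x‖ ^ 2 + δ ^ 2) ^ 2 -
      1 / (‖y - x‖ ^ 2 + δ ^ 2)) ν := by
  have hcm := comp_meas e
  refine Integrable.of_bound ((((hcm.comp (by fun_prop)).pow_const 2).const_mul 2 |>.div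
    (by fun_prop)).sub (by fun_prop)).aestronglyMeasurable (2 * (δ ^ 2)⁻¹)
      (Eventually.of_forall fun y => ?_)
  rw [Real.norm_eq_abs]
  exact comp_bound2 hδ e _ he

/-- the Laplacian of a smoothed logarithmic potential is negative -/
theorem log_laplace (hδ : 0 < δ) (hν : ν ≠ 0) (x : ℂ) :
    (∫ y, (2 * comp 1 (y - x) ^ 2 / (‖y - x‖ ^ 2 + δ ^ 2) ^ 2 - 1 / (‖y - x‖ ^ 2 + δ ^ 2)) ∂ν) +
      (∫ y, (2 * comp Complex.I (y - x) ^ 2 / (‖y - x‖ ^ 2 + δ ^ 2) ^ 2 -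
        1 / (‖y - x‖ ^ 2 + δ ^ 2)) ∂ν) < 0 := by
  have h1 := log_int2 (ν := ν) hδ x 1 (by simp)
  have h2 := log_int2 (ν := ν) hδ x Complex.I (by simp)
  rw [← integral_add h1 h2]
  have h3 : ∀ y : ℂ, (2 * comp 1 (y - x) ^ 2 / (‖y - x‖ ^ 2 + δ ^ 2) ^ 2 - 1 / (‖y - x‖ ^ 2 + δ ^ 2)) +
      (2 * comp Complex.I (y - x) ^ 2 / (‖y - x‖ ^ 2 + δ ^ 2) ^ 2 - 1 / (‖y - x‖ ^ 2 + δ ^ 2)) =
      -(2 * δ ^ 2 / (‖y - x‖ ^ 2 + δ ^ 2) ^ 2) := by
    intro y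
    have h3 : comp 1 (y - x) ^ 2 + comp Complex.I (y - x) ^ 2 = ‖y - x‖ ^ 2 := by
      rw [Complex.sq_norm, Complex.normSq_apply]
      simp [comp]
      ring
    have h4 : 0 < ‖y - x‖ ^ 2 + δ ^ 2 := by positivity
    rw [← sub_eq_zero]
    field_simp
    rw [← h3]
    ring
  have h5 : Integrable (fun y => 2 * δ ^ 2 / (‖y - x‖ ^ 2 + δ ^ 2) ^ 2) ν := by
    have := (h1.add h2).neg
    refine this.congr (Eventually.of_forall fun y => ?_)
    simp only [Pi.add_apply, Pi.neg_apply]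
    rw [h3 y, neg_neg]
  simp_rw [h3]
  rw [integral_neg, neg_lt_zero]
  rw [integral_pos_iff_support_of_nonneg (fun y => by positivity) h5]
  have h6 : Function.support (fun y => 2 * δ ^ 2 / (‖y - x‖ ^ 2 + δ ^ 2) ^ 2) = univ := by
    rw [eq_univ_iff_forall]
    intro y
    rw [Function.mem_support]
    positivity
  rw [h6]
  exact (Measure.measure_univ_ne_zero.2 hν).bot_lt

end Log

end Pool.Agent.Helper27.Cap
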