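import Pool.Agent.Helper27_Cap.Compare2
import Pool.Agent.Helper27_Cap.Energy

/-!
# Logarithmic energy: a measure of logarithmic energy at most `-log (π c / 2)`
-/

namespace Pool.Agent.Helper27.Cap

open MeasureTheory Set Filter Topology Real
open scoped ENNReal NNReal

section

variable {K : Set ℂ} {δ : ℝ}

theorem first_order_log (hK : IsCompact K) (hδ : 0 < δ) {ν : Measure ℂ} [IsProbabilityMeasure ν]
    (hνK : ν Kᶜ = 0)
    (hmin : ∀ μ' : Measure ℂ, IsProbabilityMeasure μ' → μ' Kᶜ = 0 →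
      (∫ x, pp ν δ x ∂ν) ≤ ∫ x, pp μ' δ x ∂μ')
    {x₀ : ℂ} (hx₀ : x₀ ∈ K) : (∫ x, pp ν δ x ∂ν) ≤ pp ν δ x₀ := by
  set E : ℝ := ∫ x, pp ν δ x ∂ν with hE
  set p : ℝ := pp ν δ x₀ with hp
  have hppint : Integrable (pp ν δ) ν := by
    have h1 : IntegrableOn (pp ν δ) K ν := (pp_cont hK hνK hδ).continuousOn.integrableOn_compact hK
    rwa [IntegrableOn, restrict_self_of_compl hνK] at h1
  have hl1 : Integrable (fun x => lk δ (x₀ - x)) ν := by
    refine (lk_int hK hνK hδ x₀).congr (Eventually.of_forall fun y => ?_)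
    show lk δ (y - x₀) = lk δ (x₀ - y)
    rw [← lk_neg, neg_sub]
  have hl2 : ∫ x, lk δ (x₀ - x) ∂ν = p := by
    rw [hp, pp]
    refine integral_congr_ae (Eventually.of_forall fun y => ?_)
    show lk δ (x₀ - y) = lk δ (y - x₀)
    rw [← lk_neg, neg_sub]
  have key : ∀ t : ℝ, 0 < t → t < 1 → E ≤ (1 - t) ^ 2 * E + 2 * (t * (1 - t)) * p + t ^ 2 * lk δ 0 := by
    intro t ht0 ht1
    lift t to ℝ≥0 using ht0.le
    obtain ⟨s, hs⟩ : ∃ s : ℝ≥0, (s : ℝ) = 1 - t := ⟨⟨1 - t, by linarith⟩, rfl⟩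
    rw [← hs]
    have hst : s + t = 1 := by
      have : (s : ℝ) + t = 1 := by rw [hs]; ring
      exact_mod_cast this
    set ρ : Measure ℂ := s • ν + t • Measure.dirac x₀ with hρ
    have hprob : IsProbabilityMeasure ρ := by
      constructor
      simp only [hρ, Measure.add_apply, Measure.smul_apply, measure_univ]
      rw [ENNReal.smul_def, ENNReal.smul_def, smul_eq_mul, smul_eq_mul, mul_one, mul_one]
      exact_mod_cast hst
    have hρK : ρ Kᶜ = 0 := by
      simp only [hρ, Measure.add_apply, Measure.smul_apply, hνK, smul_zero, zero_add]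
      rw [Measure.dirac_apply' _ hK.measurableSet.compl]
      simp [hx₀]
    have h1 := hmin ρ hprob hρK
    have h2 : ∀ x, pp ρ δ x = s * pp ν δ x + t * lk δ (x₀ - x) := by
      intro x
      unfold pp
      rw [hρ, integral_add_measure, integral_smul_nnreal_measure, integral_smul_nnreal_measure,
        integral_dirac]
      · rfl
      · exact (lk_int hK hνK hδ x).smul_measure_nnreal
      · exact (integrable_dirac (by simp)).smul_measure_nnreal
    have h3 : Integrable (fun x => s * pp ν δ x + t * lk δ (x₀ - x)) ν :=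
      (hppint.const_mul _).add (hl1.const_mul _)
    have h4 : ∫ x, pp ρ δ x ∂ρ = s * (s * E + t * p) + t * (s * p + t * lk δ 0) := by
      simp_rw [h2]
      rw [hρ, integral_add_measure, integral_smul_nnreal_measure, integral_smul_nnreal_measure,
        integral_dirac, integral_add (hppint.const_mul _) (hl1.const_mul _), integral_const_mul,
        integral_const_mul, hl2]
      · simp only [sub_self]
        rfl
      · exact h3.smul_measure_nnreal
      · exact (integrable_dirac (by simp)).smul_measure_nnreal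
    rw [h4] at h1
    linarith
  by_contra hcon
  push Not at hcon
  set q : ℝ := |E - 2 * p + lk δ 0| with hq
  have hq0 : 0 ≤ q := abs_nonneg _
  set t : ℝ := (E - p) / (q + 1 + (E - p)) with ht
  have hEp : 0 < E - p := by linarith
  have ht0 : 0 < t := by positivity
  have ht1 : t < 1 := by rw [ht, div_lt_one (by positivity)]; linarith
  have h5 := key t ht0 ht1
  have h6 : 0 ≤ 2 * (p - E) + t * (E - 2 * p + lk δ 0) := by
    have h7 : 0 ≤ t * (2 * (p - E) + t * (E - 2 * p + lk δ 0)) := by nlinarith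
    exact nonneg_of_mul_nonneg_right h7 ht0
  have h8 : t * (E - 2 * p + lk δ 0) ≤ t * q := by
    gcongr
    exact le_abs_self _
  have h9 : t * (q + 1 + (E - p)) = E - p := by
    rw [ht]; field_simp
  nlinarith

/-- The bound for the smoothed energies. -/
theorem smoothed_bound (hK : IsCompact K) (hne : K.Nonempty) (hδ : 0 < δ) {σ : Measure ℂ}
    [IsFiniteMeasure σ] (hσ : σ ≠ 0) (hσK : σ Kᶜ = 0)
    (hU : ∀ z : ℂ, ∫⁻ y, (‖z - y‖ₑ)⁻¹ ∂σ ≤ 1) :
    ∃ ν : Measure ℂ, IsProbabilityMeasure ν ∧ ν Kᶜ = 0 ∧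
      (∫ x, ∫ y, lk δ (y - x) ∂ν ∂ν) ≤ -Real.log (π / 2 * (σ univ).toReal) := by
  obtain ⟨ν, h1, h2, h3⟩ := exists_min_real hK hne (fun p : ℂ × ℂ => lk δ (p.2 - p.1))
    ((lk_cont hδ).comp (by fun_prop))
  refine ⟨ν, h1, h2, ?_⟩
  refine compare (ν := ν) hK hne hσ hσK h2 hU hδ fun x hx => ?_
  exact first_order_log hK hδ h2 h3 hx

theorem lk_mono {s : ℂ} {δ δ' : ℝ} (h0 : 0 < δ) (h : δ ≤ δ') : lk δ' s ≤ lk δ s := by
  unfold lk
  refine mul_le_mul_of_nonpos_left ?_ (by norm_num)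
  refine Real.log_le_log (by positivity) ?_
  gcongr

/-- the sequence of smoothing parameters -/
noncomputable def dn (n : ℕ) : ℝ := 1 / ((n : ℝ) + 1)

theorem dn_pos (n : ℕ) : 0 < dn n := by unfold dn; positivity

theorem dn_le (n : ℕ) : dn n ≤ 1 := by
  unfold dn
  rw [div_le_one (by positivity)]
  have : (0 : ℝ) ≤ n := Nat.cast_nonneg n
  linarith

theorem dn_anti {m n : ℕ} (h : m ≤ n) : dn n ≤ dn m := by
  unfold dn
  gcongr

theorem dn_tendsto : Tendsto dn atTop (𝓝 0) := tendsto_one_div_add_atTop_nhds_zero_nat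

/-- the sup of the shifted kernels -/
theorem iSup_kernel (C : ℝ) (x y : ℂ) :
    (⨆ n, ENNReal.ofReal (C + lk (dn n) (y - x))) =
      if x = y then ⊤ else ENNReal.ofReal (C - Real.log (dist x y)) := by
  have hmono : Monotone fun n => ENNReal.ofReal (C + lk (dn n) (y - x)) := by
    intro m n hmn
    refine ENNReal.ofReal_le_ofReal ?_
    have := lk_mono (s := y - x) (dn_pos n) (dn_anti hmn)
    linarith
  refine tendsto_nhds_unique (tendsto_atTop_iSup hmono) ?_
  by_cases hxy : x = y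
  · rw [if_pos hxy]
    have h1 : ∀ n, lk (dn n) (y - x) = Real.log ((n : ℝ) + 1) := by
      intro n
      have : (0 : ℝ) < (n : ℝ) + 1 := by positivity
      rw [lk, hxy, sub_self, norm_zero, dn, zero_pow (by norm_num), zero_add, Real.log_pow,
        Real.log_div one_ne_zero this.ne', Real.log_one]
      push_cast
      ring
    simp_rw [h1]
    refine ENNReal.tendsto_ofReal_atTop.comp (tendsto_atTop_add_const_left _ _ ?_)
    exact Real.tendsto_log_atTop.comp (tendsto_atTop_add_const_right _ _ tendsto_natCast_atTop_atTop)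
  · rw [if_neg hxy]
    have hs : 0 < ‖y - x‖ := norm_pos_iff.2 (sub_ne_zero.2 (Ne.symm hxy))
    have h1 : Tendsto (fun n => C + lk (dn n) (y - x)) atTop (𝓝 (C - Real.log (dist x y))) := by
      have h2 : Tendsto (fun n => ‖y - x‖ ^ 2 + dn n ^ 2) atTop (𝓝 (‖y - x‖ ^ 2 + 0 ^ 2)) :=
        (dn_tendsto.pow 2).const_add _
      have h3 := ((h2.log (by positivity)).const_mul (-(1 / 2))).const_add C
      have h4 : C + -(1 / 2) * Real.log (‖y - x‖ ^ 2 + 0 ^ 2) = C - Real.log (dist x y) := by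
        rw [zero_pow (by norm_num), add_zero, Real.log_pow, dist_comm, dist_eq_norm]
        push_cast
        ring
      rw [h4] at h3
      exact h3
    exact (ENNReal.continuous_ofReal.tendsto _).comp h1

/-- Existence of a measure with small logarithmic energy. -/
theorem log_energy (hK : IsCompact K) (hne : K.Nonempty) {σ : Measure ℂ}
    [IsFiniteMeasure σ] (hσ : σ ≠ 0) (hσK : σ Kᶜ = 0)
    (hU : ∀ z : ℂ, ∫⁻ y, (‖z - y‖ₑ)⁻¹ ∂σ ≤ 1) :
    ∃ ν : Measure ℂ, IsProbabilityMeasure ν ∧ ν Kᶜ = 0 ∧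
      (∫⁻ x, (∫⁻ y, (if x = y then ⊤ else ENNReal.ofReal (-Real.log (dist x y))) ∂ν) ∂ν) ≠ ⊤ ∧
      π / 2 * (σ univ).toReal ≤ Real.exp ((∫⁻ x, (∫⁻ y, ENNReal.ofReal (Real.log (dist x y)) ∂ν) ∂ν).toReal -
        (∫⁻ x, (∫⁻ y, (if x = y then ⊤ else ENNReal.ofReal (-Real.log (dist x y))) ∂ν) ∂ν).toReal) := by
  set γ : ℝ := -Real.log (π / 2 * (σ univ).toReal) with hγ
  obtain ⟨ν, hν, hνK, hνE⟩ := exists_common hK (fun n (p : ℂ × ℂ) => lk (dn n) (p.2 - p.1))
    (fun n => (lk_cont (dn_pos n)).comp (by fun_prop))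
    (fun m n hmn p => lk_mono (dn_pos n) (dn_anti hmn)) γ
    (fun n => smoothed_bound hK hne (dn_pos n) hσ hσK hU)
  simp only at hνE
  refine ⟨ν, hν, hνK, ?_⟩
  have hc0 : 0 < (σ univ).toReal := ENNReal.toReal_pos (Measure.measure_univ_ne_zero.2 hσ) (measure_ne_top _ _)
  have hpi := Real.pi_pos
  obtain ⟨D, hD0, hKD⟩ : ∃ D : ℝ, 0 ≤ D ∧ K ⊆ Metric.closedBall 0 D := by
    obtain ⟨D, hD⟩ := hK.isBounded.subset_closedBall 0
    exact ⟨max D 0, le_max_right _ _, hD.trans (Metric.closedBall_subset_closedBall (le_max_left _ _))⟩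
  set C : ℝ := 1 / 2 * Real.log ((2 * D) ^ 2 + 1) with hC
  have hC0 : 0 ≤ C := by
    have : 0 ≤ Real.log ((2 * D) ^ 2 + 1) := Real.log_nonneg (by nlinarith [sq_nonneg (2 * D)])
    positivity
  have hnorm : ∀ x ∈ K, ∀ y ∈ K, ‖y - x‖ ≤ 2 * D := by
    intro x hx y hy
    have h1 : ‖x‖ ≤ D := by simpa using hKD hx
    have h2 : ‖y‖ ≤ D := by simpa using hKD hy
    have := norm_sub_le y x
    linarith
  have hClk : ∀ n, ∀ x ∈ K, ∀ y ∈ K, 0 ≤ C + lk (dn n) (y - x) := by
    intro n x hx y hy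
    have h1 := hnorm x hx y hy
    have h2 : Real.log (‖y - x‖ ^ 2 + dn n ^ 2) ≤ Real.log ((2 * D) ^ 2 + 1) := by
      refine Real.log_le_log ?_ ?_
      · have := dn_pos n
        positivity
      · have h3 : dn n ^ 2 ≤ 1 := by
          have := dn_pos n
          have := dn_le n
          nlinarith
        have h4 : ‖y - x‖ ^ 2 ≤ (2 * D) ^ 2 := by gcongr
        linarith
    rw [lk, hC]
    linarith
  have hCL : ∀ x ∈ K, ∀ y ∈ K, Real.log (dist x y) ≤ C := by
    intro x hx y hy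
    rcases eq_or_ne x y with rfl | hxy
    · simpa using hC0
    · have h1 := hnorm x hx y hy
      have hs : 0 < ‖y - x‖ := norm_pos_iff.2 (sub_ne_zero.2 (Ne.symm hxy))
      rw [dist_comm, dist_eq_norm]
      have h2 : Real.log (‖y - x‖ ^ 2) ≤ Real.log ((2 * D) ^ 2 + 1) := by
        refine Real.log_le_log (by positivity) ?_
        have h4 : ‖y - x‖ ^ 2 ≤ (2 * D) ^ 2 := by gcongr
        linarith
      rw [Real.log_pow] at h2
      push_cast at h2
      rw [hC]
      linarith
  have haeK := ae_mem_of_compl hνK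
  -- measurability
  have hfm : ∀ n, Measurable (Function.uncurry fun x y : ℂ => ENNReal.ofReal (C + lk (dn n) (y - x))) := by
    intro n
    have := (lk_cont (dn_pos n)).measurable
    unfold Function.uncurry
    exact ENNReal.measurable_ofReal.comp (measurable_const.add (this.comp (by fun_prop)))
  -- smoothed energies
  have hint : ∀ n x, Integrable (fun y => lk (dn n) (y - x)) ν := fun n x => lk_int hK hνK (dn_pos n) x
  have hppint : ∀ n, Integrable (pp ν (dn n)) ν := by
    intro n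
    have h1 : IntegrableOn (pp ν (dn n)) K ν :=
      (pp_cont hK hνK (dn_pos n)).continuousOn.integrableOn_compact hK
    rwa [IntegrableOn, restrict_self_of_compl hνK] at h1
  have hinner : ∀ n, ∀ x ∈ K, 0 ≤ C + pp ν (dn n) x ∧
      ∫⁻ y, ENNReal.ofReal (C + lk (dn n) (y - x)) ∂ν = ENNReal.ofReal (C + pp ν (dn n) x) := by
    intro n x hx
    have h1 : Integrable (fun y => C + lk (dn n) (y - x)) ν := (integrable_const C).add (hint n x)
    have h2 : ∫ y, (C + lk (dn n) (y - x)) ∂ν = C + pp ν (dn n) x := by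
      rw [integral_add (integrable_const C) (hint n x)]
      simp [pp]
    have h3 : 0 ≤ᵐ[ν] fun y => C + lk (dn n) (y - x) := by
      filter_upwards [haeK] with y hy
      exact hClk n x hx y hy
    refine ⟨h2 ▸ integral_nonneg_of_ae h3, ?_⟩
    rw [← h2, ofReal_integral_eq_lintegral_ofReal h1 h3]
  have houter : ∀ n, 0 ≤ C + γ ∧ (∫⁻ x, (∫⁻ y, ENNReal.ofReal (C + lk (dn n) (y - x)) ∂ν) ∂ν) ≤
      ENNReal.ofReal (C + γ) := by
    intro n
    have h1 : Integrable (fun x => C + pp ν (dn n) x) ν := (integrable_const C).add (hppint n)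
    have h2 : ∫ x, (C + pp ν (dn n) x) ∂ν = C + ∫ x, pp ν (dn n) x ∂ν := by
      rw [integral_add (integrable_const C) (hppint n)]
      simp
    have h3 : 0 ≤ᵐ[ν] fun x => C + pp ν (dn n) x := by
      filter_upwards [haeK] with x hx
      exact (hinner n x hx).1
    have h4 : (∫ x, pp ν (dn n) x ∂ν) ≤ γ := hνE n
    have h5 : 0 ≤ C + ∫ x, pp ν (dn n) x ∂ν := h2 ▸ integral_nonneg_of_ae h3
    refine ⟨by linarith, ?_⟩
    calc (∫⁻ x, (∫⁻ y, ENNReal.ofReal (C + lk (dn n) (y - x)) ∂ν) ∂ν) =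
          ∫⁻ x, ENNReal.ofReal (C + pp ν (dn n) x) ∂ν := by
            refine lintegral_congr_ae ?_
            filter_upwards [haeK] with x hx
            exact (hinner n x hx).2
      _ = ENNReal.ofReal (C + ∫ x, pp ν (dn n) x ∂ν) := by
            rw [← h2, ofReal_integral_eq_lintegral_ofReal h1 h3]
      _ ≤ _ := ENNReal.ofReal_le_ofReal (by linarith)
  have hCγ : 0 ≤ C + γ := (houter 0).1
  -- the limit
  set f : ℂ → ℂ → ℝ≥0∞ := fun x y => if x = y then ⊤ else ENNReal.ofReal (C - Real.log (dist x y)) with hf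
  have hmonoxy : ∀ x y, Monotone fun n => ENNReal.ofReal (C + lk (dn n) (y - x)) := by
    intro x y m n hmn
    refine ENNReal.ofReal_le_ofReal ?_
    have := lk_mono (s := y - x) (dn_pos n) (dn_anti hmn)
    linarith
  have hlim : (∫⁻ x, (∫⁻ y, f x y ∂ν) ∂ν) ≤ ENNReal.ofReal (C + γ) := by
    have h1 : ∀ x, ∫⁻ y, f x y ∂ν = ⨆ n, ∫⁻ y, ENNReal.ofReal (C + lk (dn n) (y - x)) ∂ν := by
      intro x
      rw [← lintegral_iSup (fun n => (hfm n).of_uncurry_left) (fun m n hmn y => hmonoxy x y hmn)]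
      exact lintegral_congr fun y => (iSup_kernel C x y).symm
    have hm2 : ∀ n, Measurable fun x => ∫⁻ y, ENNReal.ofReal (C + lk (dn n) (y - x)) ∂ν :=
      fun n => (hfm n).lintegral_prod_right'
    simp_rw [h1]
    rw [lintegral_iSup hm2 (fun m n hmn x => lintegral_mono fun y => hmonoxy x y hmn)]
    exact iSup_le fun n => (houter n).2
  -- the identity
  set neg : ℂ → ℂ → ℝ≥0∞ := fun x y => if x = y then ⊤ else ENNReal.ofReal (-Real.log (dist x y)) with hneg
  set pos : ℂ → ℂ → ℝ≥0∞ := fun x y => ENNReal.ofReal (Real.log (dist x y)) with hpos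
  have hpt : ∀ x ∈ K, ∀ y ∈ K, f x y + pos x y = ENNReal.ofReal C + neg x y := by
    intro x hx y hy
    simp only [hf, hpos, hneg]
    by_cases hxy : x = y
    · simp [hxy]
    · rw [if_neg hxy, if_neg hxy]
      have h1 := hCL x hx y hy
      set L := Real.log (dist x y)
      rcases le_total 0 L with hL | hL
      · rw [ENNReal.ofReal_of_nonpos (by linarith : -L ≤ 0), add_zero,
          ← ENNReal.ofReal_add (by linarith) hL]
        congr 1; ring
      · rw [ENNReal.ofReal_of_nonpos hL, add_zero, ← ENNReal.ofReal_add hC0 (by linarith)]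
        congr 1
  have hposm : Measurable (Function.uncurry pos) := by
    unfold Function.uncurry
    simp only [hpos]
    exact ENNReal.measurable_ofReal.comp (Real.measurable_log.comp (measurable_fst.dist measurable_snd))
  set P : ℝ≥0∞ := ∫⁻ x, (∫⁻ y, pos x y ∂ν) ∂ν with hP
  set N : ℝ≥0∞ := ∫⁻ x, (∫⁻ y, neg x y ∂ν) ∂ν with hN
  set E : ℝ≥0∞ := ∫⁻ x, (∫⁻ y, f x y ∂ν) ∂ν with hE
  have hsum : E + P = ENNReal.ofReal C + N := by
    have h1 : ∀ x, ∫⁻ y, (f x y + pos x y) ∂ν = (∫⁻ y, f x y ∂ν) + ∫⁻ y, pos x y ∂ν :=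
      fun x => lintegral_add_right _ hposm.of_uncurry_left
    have h2 : ∀ x, ∫⁻ y, (ENNReal.ofReal C + neg x y) ∂ν = ENNReal.ofReal C + ∫⁻ y, neg x y ∂ν := by
      intro x
      rw [lintegral_add_left measurable_const]
      simp
    have h3 : (∫⁻ x, (∫⁻ y, (f x y + pos x y) ∂ν) ∂ν) = E + P := by
      simp_rw [h1]
      exact lintegral_add_right _ hposm.lintegral_prod_right'
    have h4 : (∫⁻ x, (∫⁻ y, (ENNReal.ofReal C + neg x y) ∂ν) ∂ν) = ENNReal.ofReal C + N := by
      simp_rw [h2]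
      rw [lintegral_add_left measurable_const]
      simp [hN]
    rw [← h3, ← h4]
    refine lintegral_congr_ae ?_
    filter_upwards [haeK] with x hx
    refine lintegral_congr_ae ?_
    filter_upwards [haeK] with y hy
    exact hpt x hx y hy
  have hEfin : E ≠ ⊤ := ne_top_of_le_ne_top ENNReal.ofReal_ne_top hlim
  have hPfin : P ≠ ⊤ := by
    refine ne_top_of_le_ne_top (ENNReal.ofReal_ne_top (r := C)) ?_
    calc P ≤ ∫⁻ x, (∫⁻ y, ENNReal.ofReal C ∂ν) ∂ν := by
          refine lintegral_mono_ae ?_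
          filter_upwards [haeK] with x hx
          refine lintegral_mono_ae ?_
          filter_upwards [haeK] with y hy
          exact ENNReal.ofReal_le_ofReal (hCL x hx y hy)
      _ = _ := by simp
  have hNfin : N ≠ ⊤ := by
    refine ne_top_of_le_ne_top (ENNReal.add_ne_top.2 ⟨hEfin, hPfin⟩) ?_
    rw [hsum]
    exact le_add_self
  refine ⟨hNfin, ?_⟩
  have h1 := congrArg ENNReal.toReal hsum
  rw [ENNReal.toReal_add hEfin hPfin, ENNReal.toReal_add ENNReal.ofReal_ne_top hNfin,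
    ENNReal.toReal_ofReal hC0] at h1
  have h2 : E.toReal ≤ C + γ := ENNReal.toReal_le_of_le_ofReal hCγ hlim
  have h3 : -γ ≤ P.toReal - N.toReal := by linarith
  rw [← Real.log_le_iff_le_exp (by positivity)]
  rw [hγ, neg_neg] at h3
  exact h3

end

end Pool.Agent.Helper27.Cap
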