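import Pool.Agent.Helper27_Cap.MaxPrinciple
import Pool.Agent.Helper27_Cap.Energy
import Pool.Agent.Helper27_Cap.FirstOrder

/-!
# The Newtonian equilibrium measure of a planar compact set
-/

namespace Pool.Agent.Helper27.Cap

open MeasureTheory Set Filter Topology
open scoped ENNReal NNReal

/-- Equilibrium measure, normalized to have potential at most `1` everywhere. -/
theorem newton_equilibrium {K : Set ℂ} (hK : IsCompact K)
    (hex : ∃ μ : Measure ℂ, IsProbabilityMeasure μ ∧ μ Kᶜ = 0 ∧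
      (∫⁻ x, (∫⁻ y, (‖x - y‖ₑ)⁻¹ ∂μ) ∂μ) ≠ ⊤) :
    ∃ σ : Measure ℂ, IsFiniteMeasure σ ∧ σ ≠ 0 ∧ σ Kᶜ = 0 ∧ (∀ z, ∫⁻ y, (‖z - y‖ₑ)⁻¹ ∂σ ≤ 1) ∧
      ∀ μ : Measure ℂ, IsProbabilityMeasure μ → μ Kᶜ = 0 →
        (∫⁻ x, (∫⁻ y, (‖x - y‖ₑ)⁻¹ ∂μ) ∂μ)⁻¹ ≤ σ univ := by
  obtain ⟨μ₁, hμ₁, hμ₁K, hμ₁E⟩ := hex
  have hne : K.Nonempty := by
    by_contra h
    rw [Set.not_nonempty_iff_eq_empty] at h
    rw [h, compl_empty, measure_univ] at hμ₁K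
    exact one_ne_zero hμ₁K
  obtain ⟨μ, hμ, hμK, hmin⟩ := exists_min_lsc hK hne (fun p : ℂ × ℂ => (‖p.1 - p.2‖ₑ)⁻¹) tk tk_cont
    tk_mono tk_iSup
  simp only at hmin
  set V : ℝ≥0∞ := ∫⁻ x, (∫⁻ y, (‖x - y‖ₑ)⁻¹ ∂μ) ∂μ with hV
  have hVfin : V ≠ ⊤ := ne_top_of_le_ne_top hμ₁E (hmin μ₁ hμ₁ hμ₁K)
  have hGm : Measurable (Function.uncurry fun x y : ℂ => (‖x - y‖ₑ)⁻¹) := by
    unfold Function.uncurry
    fun_prop
  have hpotm : Measurable fun x => ∫⁻ y, (‖x - y‖ₑ)⁻¹ ∂μ := hGm.lintegral_prod_right'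
  have hV0 : V ≠ 0 := by
    intro h0
    rw [hV, lintegral_eq_zero_iff hpotm] at h0
    have h1 : ∀ᵐ x ∂μ, False := by
      filter_upwards [h0] with x hx
      simp only [Pi.zero_apply] at hx
      rw [lintegral_eq_zero_iff (by fun_prop)] at hx
      have h2 : ∀ᵐ y ∂μ, False := by
        filter_upwards [hx] with y hy
        simp only [Pi.zero_apply, ENNReal.inv_eq_zero] at hy
        exact enorm_ne_top hy
      simp at h2
      exact NeZero.ne μ h2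
    simp at h1
    exact NeZero.ne μ h1
  have hae : ∀ᵐ x ∂μ, ∫⁻ y, (‖x - y‖ₑ)⁻¹ ∂μ = V := by
    refine potential_ae_eq (fun x y : ℂ => (‖x - y‖ₑ)⁻¹) hGm (fun x y => by rw [enorm_sub_rev]) μ
      hVfin fun μ' h1 h2 => ?_
    exact hmin μ' h1 (h2 hμK)
  have hmax := max_principle (μ := μ) hVfin (hae.mono fun x hx => hx.le)
  refine ⟨V⁻¹ • μ, ⟨?_⟩, ?_, ?_, fun z => ?_, fun μ' h1 h2 => ?_⟩
  · rw [Measure.smul_apply, measure_univ, smul_eq_mul, mul_one]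
    exact (ENNReal.inv_ne_top.2 hV0).lt_top
  · intro h
    have : (V⁻¹ • μ) univ = 0 := by rw [h]; simp
    rw [Measure.smul_apply, measure_univ, smul_eq_mul, mul_one, ENNReal.inv_eq_zero] at this
    exact hVfin this
  · rw [Measure.smul_apply, hμK, smul_zero]
  · rw [lintegral_smul_measure, smul_eq_mul]
    calc V⁻¹ * ∫⁻ y, (‖z - y‖ₑ)⁻¹ ∂μ ≤ V⁻¹ * V := by gcongr; exact hmax z
      _ = 1 := ENNReal.inv_mul_cancel hV0 hVfin
  · rw [Measure.smul_apply, measure_univ, smul_eq_mul, mul_one]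
    exact ENNReal.inv_le_inv.2 (hmin μ' h1 h2)

end Pool.Agent.Helper27.Cap
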